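import Pool.Agent.V8H77.GM.Ell

set_option autoImplicit false

open MeasureTheory Set Filter Topology Metric
open scoped RealInnerProductSpace ENNReal Nat

namespace Pool.Agent.V8H77.GM

variable {d : ℕ}

/-- the standard cross-polytope -/
def L1 (d : ℕ) : Set (E d) := {x | ∑ i, |x i| ≤ 1}

lemma volume_L1 (hd : 0 < d) : volume (L1 d) = ENNReal.ofReal (2 ^ d / d !) := by
  have : Nonempty (Fin d) := ⟨⟨0, hd⟩⟩
  have h1 := volume_sum_rpow_le (ι := Fin d) (p := 1) le_rfl 1
  have h2 := (EuclideanSpace.volume_preserving_symm_measurableEquiv_toLp (Fin d))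
  have h3 : L1 d = (MeasurableEquiv.toLp 2 (Fin d → ℝ)).symm ⁻¹'
      {x : Fin d → ℝ | (∑ i, |x i| ^ (1 : ℝ)) ^ (1 / (1 : ℝ)) ≤ 1} := by
    ext x
    simp [L1]
  rw [h3, h2.measure_preimage_equiv, h1]
  simp [Real.Gamma_nat_eq_factorial, Real.Gamma_two, show (1 : ℝ) + 1 = 2 by norm_num]

lemma std_single (i : Fin d) :
    EuclideanSpace.basisFun (Fin d) ℝ i = EuclideanSpace.single i (1 : ℝ) := by
  simp

/-- the cross-polytope with vertices `± v i` -/
def cross (v : Fin d → E d) : Set (E d) :=
  convexHull ℝ (range v ∪ range fun i => -v i)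

lemma cross_std (hd : 0 < d) : cross (fun i => EuclideanSpace.basisFun (Fin d) ℝ i) = L1 d := by
  apply Subset.antisymm
  · apply convexHull_min
    · rintro x (⟨i, rfl⟩ | ⟨i, rfl⟩)
      · show ∑ j, |(EuclideanSpace.basisFun (Fin d) ℝ i) j| ≤ 1
        rw [std_single]
        simp only [PiLp.single_apply]
        rw [Finset.sum_eq_single i]
        · simp
        · intro j _ hj; simp [hj]
        · simp
      · show ∑ j, |(-(EuclideanSpace.basisFun (Fin d) ℝ i)) j| ≤ 1
        rw [std_single]
        simp only [PiLp.neg_apply, abs_neg, PiLp.single_apply]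
        rw [Finset.sum_eq_single i]
        · simp
        · intro j _ hj; simp [hj]
        · simp
    · intro x hx y hy a b ha hb hab
      show ∑ j, |(a • x + b • y) j| ≤ 1
      have hx' : ∑ j, |x j| ≤ 1 := hx
      have hy' : ∑ j, |y j| ≤ 1 := hy
      calc ∑ j, |(a • x + b • y) j| ≤ ∑ j, (a * |x j| + b * |y j|) := by
            apply Finset.sum_le_sum
            intro j _
            simp only [PiLp.add_apply, PiLp.smul_apply, smul_eq_mul]
            refine (abs_add_le _ _).trans ?_
            rw [abs_mul, abs_mul, abs_of_nonneg ha, abs_of_nonneg hb]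
        _ = a * ∑ j, |x j| + b * ∑ j, |y j| := by
            rw [Finset.sum_add_distrib, Finset.mul_sum, Finset.mul_sum]
        _ ≤ a * 1 + b * 1 := by gcongr
        _ = 1 := by linarith
  · intro x hx
    have hx' : ∑ j, |x j| ≤ 1 := hx
    set S : Set (E d) := cross (fun i => EuclideanSpace.basisFun (Fin d) ℝ i) with hS
    have hSc : Convex ℝ S := convex_convexHull ℝ _
    have h1 : ∀ i, EuclideanSpace.basisFun (Fin d) ℝ i ∈ S := fun i =>
      subset_convexHull ℝ _ (Or.inl ⟨i, rfl⟩)
    have h2 : ∀ i, -EuclideanSpace.basisFun (Fin d) ℝ i ∈ S := fun i =>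
      subset_convexHull ℝ _ (Or.inr ⟨i, rfl⟩)
    have h0 : (0 : E d) ∈ S := by
      have := hSc (h1 ⟨0, hd⟩) (h2 ⟨0, hd⟩) (show (0:ℝ) ≤ 1/2 by norm_num)
        (show (0:ℝ) ≤ 1/2 by norm_num) (by norm_num)
      simpa using this
    have h3 : ∀ i, ∃ y ∈ S, |x i| • y = (x i) • EuclideanSpace.basisFun (Fin d) ℝ i := by
      intro i
      rcases le_total 0 (x i) with h | h
      · exact ⟨_, h1 i, by rw [abs_of_nonneg h]⟩
      · exact ⟨_, h2 i, by rw [abs_of_nonpos h, smul_neg, neg_smul, neg_neg]⟩
    choose y hy hxy using h3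
    have hsum : x = ∑ i, |x i| • y i := by
      simp_rw [hxy]
      exact ((EuclideanSpace.basisFun (Fin d) ℝ).sum_repr x).symm
    set y' : Option (Fin d) → E d := fun o => o.elim 0 y with hy'
    set w' : Option (Fin d) → ℝ := fun o => o.elim (1 - ∑ j, |x j|) (fun i => |x i|) with hw'
    have h4 : ∑ o, w' o • y' o ∈ S := by
      apply hSc.sum_mem
      · rintro (_ | i) _
        · simp only [hw', Option.elim_none]; linarith
        · simp only [hw', Option.elim_some]; exact abs_nonneg _
      · rw [Fintype.sum_option]; simp [hw']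
      · rintro (_ | i) _
        · exact h0
        · exact hy i
    rw [Fintype.sum_option] at h4
    simp only [hw', hy', Option.elim_none, Option.elim_some, smul_zero, zero_add] at h4
    rw [hsum]
    exact h4

lemma volume_cross (hd : 0 < d) (v : Fin d → E d) :
    volume (cross v) = ENNReal.ofReal (2 ^ d / d ! * |om d v|) := by
  let f : E d →ₗ[ℝ] E d := (EuclideanSpace.basisFun (Fin d) ℝ).toBasis.constr ℝ v
  have hf : ∀ i, f (EuclideanSpace.basisFun (Fin d) ℝ i) = v i := by
    intro i
    have := (EuclideanSpace.basisFun (Fin d) ℝ).toBasis.constr_basis ℝ v i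
    rwa [OrthonormalBasis.coe_toBasis] at this
  have hdet : LinearMap.det f = om d v := by
    have h1 := (EuclideanSpace.basisFun (Fin d) ℝ).toBasis.det_comp f
      (EuclideanSpace.basisFun (Fin d) ℝ).toBasis
    have h2 : om d (f ∘ (EuclideanSpace.basisFun (Fin d) ℝ).toBasis) = LinearMap.det f := by
      unfold om
      rw [h1, Module.Basis.det_self, mul_one]
    rw [← h2]
    congr 1
    ext1 i
    rw [Function.comp_apply, OrthonormalBasis.coe_toBasis]
    exact hf i
  have himg : cross v = f '' L1 d := by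
    rw [← cross_std hd]
    unfold cross
    rw [LinearMap.image_convexHull, image_union, ← range_comp, ← range_comp]
    congr 2
    · congr 1; ext1 i; exact (hf i).symm
    · congr 1; ext1 i
      rw [Function.comp_apply, map_neg, hf]
  rw [himg, Measure.addHaar_image_linearMap, hdet, volume_L1 hd, ← ENNReal.ofReal_mul (abs_nonneg _),
    mul_comm]

/-- Hadamard's inequality -/
lemma om_le_one (v : Fin d → E d) (hv : ∀ i, v i ∈ closedBall (0 : E d) 1) : |om d v| ≤ 1 := by
  have : Fact (Module.finrank ℝ (E d) = d) := ⟨finrank_euclideanSpace_fin⟩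
  set o := (EuclideanSpace.basisFun (Fin d) ℝ).toBasis.orientation with ho
  have h1 := o.abs_volumeForm_apply_le v
  rw [o.volumeForm_robust (EuclideanSpace.basisFun (Fin d) ℝ) rfl] at h1
  refine h1.trans (Finset.prod_le_one (fun i _ => norm_nonneg _) fun i _ => ?_)
  exact mem_closedBall_zero_iff.1 (hv i)

lemma om_map (T : E d ≃ₗ[ℝ] E d) (v : Fin d → E d) :
    om d (fun i => T (v i)) = LinearMap.det (T : E d →ₗ[ℝ] E d) * om d v := by
  have := (EuclideanSpace.basisFun (Fin d) ℝ).toBasis.det_comp (T : E d →ₗ[ℝ] E d) v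
  exact this

lemma li_of_om {v : Fin d → E d} (h : om d v ≠ 0) : LinearIndependent ℝ v := by
  have h1 : IsUnit ((EuclideanSpace.basisFun (Fin d) ℝ).toBasis.det v) := isUnit_iff_ne_zero.2 h
  exact ((EuclideanSpace.basisFun (Fin d) ℝ).toBasis.is_basis_iff_det.2 h1).1

lemma om_of_li {v : Fin d → E d} (h : LinearIndependent ℝ v) : om d v ≠ 0 := by
  have h1 : IsUnit ((EuclideanSpace.basisFun (Fin d) ℝ).toBasis.det v) := by
    apply (EuclideanSpace.basisFun (Fin d) ℝ).toBasis.is_basis_iff_det.1
    exact ⟨h, h.span_eq_top_of_card_eq_finrank' (by simp)⟩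
  exact h1.ne_zero

lemma volume_ball_one (hd : 0 < d) : volume (closedBall (0 : E d) 1) =
    ENNReal.ofReal (Real.pi ^ ((d : ℝ) / 2) / Real.Gamma ((d : ℝ) / 2 + 1)) := by
  have : Nonempty (Fin d) := ⟨⟨0, hd⟩⟩
  rw [EuclideanSpace.volume_closedBall]
  simp only [ENNReal.ofReal_one, one_pow, one_mul, Fintype.card_fin]
  congr 2
  rw [Real.sqrt_eq_rpow, ← Real.rpow_natCast, ← Real.rpow_mul Real.pi_pos.le]
  congr 1
  ring

end Pool.Agent.V8H77.GM
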