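import Pool.Agent.H318R3.St.Main

set_option autoImplicit false

open MeasureTheory Set Filter Topology Metric
open scoped RealInnerProductSpace ENNReal

namespace Pool.Agent.V8H77.GM

open Pool.Agent.H318R3.St

/-- Euclidean space of dimension `d`. -/
abbrev E (d : ℕ) : Type := EuclideanSpace ℝ (Fin d)

/-- The determinant of `d` vectors. -/
noncomputable def om (d : ℕ) : E d [⋀^Fin d]→ₗ[ℝ] ℝ :=
  (EuclideanSpace.basisFun (Fin d) ℝ).toBasis.det

variable {d : ℕ}

lemma om_std : om d (fun i => EuclideanSpace.basisFun (Fin d) ℝ i) = 1 := by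
  have := (EuclideanSpace.basisFun (Fin d) ℝ).toBasis.det_self
  rw [OrthonormalBasis.coe_toBasis] at this
  exact this

lemma om_continuous : Continuous (fun v : Fin d → E d => om d v) := by
  unfold om
  have h : ∀ v : Fin d → E d, (EuclideanSpace.basisFun (Fin d) ℝ).toBasis.det v =
      Matrix.det (Matrix.of fun i j => v j i) := by
    intro v
    rw [Module.Basis.det_apply]
    congr 1
  simp_rw [h]
  apply Continuous.matrix_det
  fun_prop

/-- The linear dependence on the components in the direction `u`. -/
lemma om_line {u : E d} (hu : ‖u‖ = 1) (x : Fin d → E d) (hx : ∀ i, ⟪x i, u⟫ = 0) :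
    ∃ c : Fin d → ℝ, ∀ s : Fin d → ℝ, om d (fun i => x i + s i • u) = ∑ i, c i * s i := by
  classical
  rcases Nat.eq_zero_or_pos d with hd | hd
  · subst hd
    exfalso
    have : u = 0 := Subsingleton.elim _ _
    rw [this] at hu
    simp at hu
  let i0 : Fin d := ⟨0, hd⟩
  obtain ⟨b, hb⟩ := Orthonormal.exists_orthonormalBasis_extension_of_card_eq (𝕜 := ℝ) (E := E d)
    (ι := Fin d) (v := fun _ => u) (s := {i0}) (by simp) (by
      constructor
      · intro i; exact hu
      · intro i j hij
        exact absurd (Subsingleton.elim i j) hij)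
  have hb0 : b i0 = u := hb i0 rfl
  have h1 : om d = (om d b.toBasis) • b.toBasis.det := (om d).eq_smul_basis_det b.toBasis
  -- the linear map
  let X : Matrix (Fin d) (Fin d) ℝ := Matrix.of fun i j => b.repr (x j) i
  have key : ∀ s : Fin d → ℝ, om d (fun i => x i + s i • u) =
      om d b.toBasis * Matrix.det (Matrix.updateRow X i0 s) := by
    intro s
    conv_lhs => rw [h1]
    rw [AlternatingMap.smul_apply, smul_eq_mul, Module.Basis.det_apply]
    congr 2
    · ext i j
      rw [Module.Basis.toMatrix_apply, OrthonormalBasis.coe_toBasis_repr_apply]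
      have e1 : (b.repr (x j + s j • u)).ofLp i = (b.repr (x j)).ofLp i + s j * ⟪b i, u⟫ := by
        rw [b.repr_apply_apply, b.repr_apply_apply, inner_add_right, inner_smul_right]
      rw [e1]
      by_cases hi : i = i0
      · rw [hi, Matrix.updateRow_self, hb0, b.repr_apply_apply, hb0, real_inner_comm, hx j,
          inner_self_one hu]
        simp
      · rw [Matrix.updateRow_ne hi]
        have e2 : ⟪b i, u⟫ = 0 := by
          rw [← hb0]; exact b.orthonormal.2 hi
        rw [e2]
        simp [X]
  let L : (Fin d → ℝ) →ₗ[ℝ] ℝ :=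
    { toFun := fun s => om d b.toBasis * Matrix.det (Matrix.updateRow X i0 s)
      map_add' := by
        intro s t
        rw [Matrix.det_updateRow_add]; ring
      map_smul' := by
        intro r s
        rw [Matrix.det_updateRow_smul]
        simp only [smul_eq_mul, RingHom.id_apply]; ring }
  refine ⟨fun i => L (Pi.single i 1), fun s => ?_⟩
  rw [key]
  change L s = _
  conv_lhs => rw [← Finset.univ_sum_single s]
  rw [map_sum]
  apply Finset.sum_congr rfl
  intro i _
  have : (Pi.single i (s i) : Fin d → ℝ) = s i • Pi.single i (1 : ℝ) := by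
    rw [← Pi.single_smul]; simp
  rw [this, map_smul, smul_eq_mul, mul_comm]

/-- bound on hulls -/
lemma om_hull {S : Set (E d)} {c : ℝ} (h : ∀ v : Fin d → E d, (∀ i, v i ∈ S) → |om d v| ≤ c)
    (v : Fin d → E d) (hv : ∀ i, v i ∈ convexHull ℝ S) : |om d v| ≤ c := by
  classical
  have key : ∀ T : Finset (Fin d), ∀ v : Fin d → E d, (∀ i ∈ T, v i ∈ convexHull ℝ S) →
      (∀ i ∉ T, v i ∈ S) → |om d v| ≤ c := by
    intro T
    induction T using Finset.induction_on with
    | empty =>
      intro v _ h2
      exact h v fun i => h2 i (Finset.notMem_empty i)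
    | insert a T ha ih =>
      intro v h1 h2
      have hconv : Convex ℝ {y : E d | |om d (Function.update v a y)| ≤ c} := by
        intro y hy z hz r s hr hs hrs
        simp only [mem_ofPred_eq] at hy hz ⊢
        have e : om d (Function.update v a (r • y + s • z)) =
            r * om d (Function.update v a y) + s * om d (Function.update v a z) := by
          rw [AlternatingMap.map_update_add, AlternatingMap.map_update_smul,
            AlternatingMap.map_update_smul]
          simp
        rw [e]
        calc |r * om d (Function.update v a y) + s * om d (Function.update v a z)| ≤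
            |r * om d (Function.update v a y)| + |s * om d (Function.update v a z)| := abs_add_le _ _
          _ = r * |om d (Function.update v a y)| + s * |om d (Function.update v a z)| := by
            rw [abs_mul, abs_mul, abs_of_nonneg hr, abs_of_nonneg hs]
          _ ≤ r * c + s * c := by gcongr
          _ = c := by rw [← add_mul, hrs, one_mul]
      have hsub : S ⊆ {y : E d | |om d (Function.update v a y)| ≤ c} := by
        intro y hy
        apply ih
        · intro i hi
          rw [Function.update_of_ne (by rintro rfl; exact ha hi)]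
          exact h1 i (Finset.mem_insert_of_mem hi)
        · intro i hi
          by_cases hia : i = a
          · subst hia
            rw [Function.update_self]; exact hy
          · rw [Function.update_of_ne hia]
            exact h2 i (by simp [hia, hi])
      have := convexHull_min hsub hconv (h1 a (Finset.mem_insert_self a T))
      simpa using this
  exact key Finset.univ v (fun i _ => hv i) (fun i hi => absurd (Finset.mem_univ i) hi)

/-- Symmetrization does not increase the maximal determinant. -/
lemma om_sym {u : E d} (hu : ‖u‖ = 1) {K : Set (E d)} (hK : IsCompact K) (hc : Convex ℝ K)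
    {c : ℝ} (h : ∀ v : Fin d → E d, (∀ i, v i ∈ K) → |om d v| ≤ c)
    (v : Fin d → E d) (hv : ∀ i, v i ∈ sym u K) : |om d v| ≤ c := by
  have hdec : ∀ i, ∃ x : E d, ∃ m t : ℝ, ⟪x, u⟫ = 0 ∧ v i = x + t • u ∧
      x + (m + t) • u ∈ K ∧ x + (m - t) • u ∈ K := by
    intro i
    obtain ⟨x, t, h1, h2, h3, h4⟩ := hv i
    rcases chord_cases hu x hK hc with h5 | ⟨a, b, hab, h5⟩
    · exfalso
      have : (chord u x K).Nonempty := h3
      rw [h5] at this
      simp at this
    · rw [h5, Real.volume_Icc, ENNReal.toReal_ofReal (by linarith)] at h4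
      have h6 := abs_le.1 (show |t| ≤ (b - a) / 2 by linarith)
      refine ⟨x, (a + b) / 2, t, h2, h1, ?_, ?_⟩
      · change (a + b) / 2 + t ∈ chord u x K
        rw [h5]; constructor <;> linarith [h6.1, h6.2]
      · change (a + b) / 2 - t ∈ chord u x K
        rw [h5]; constructor <;> linarith [h6.1, h6.2]
  choose x m t hx hvt h1 h2 using hdec
  obtain ⟨cc, hcc⟩ := om_line hu x hx
  have e0 : om d v = ∑ i, cc i * t i := by
    rw [← hcc]
    congr 1
    ext1 i
    exact hvt i
  have b1 := h _ h1
  have b2 := h _ h2
  rw [hcc] at b1 b2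
  have e1 : ∑ i, cc i * (m i + t i) = ∑ i, cc i * m i + ∑ i, cc i * t i := by
    rw [← Finset.sum_add_distrib]
    exact Finset.sum_congr rfl fun i _ => by ring
  have e2 : ∑ i, cc i * (m i - t i) = ∑ i, cc i * m i - ∑ i, cc i * t i := by
    rw [← Finset.sum_sub_distrib]
    exact Finset.sum_congr rfl fun i _ => by ring
  rw [e1] at b1
  rw [e2] at b2
  rw [e0]
  rw [abs_le] at *
  constructor <;> linarith [b1.1, b1.2, b2.1, b2.2]

end Pool.Agent.V8H77.GM
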