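import Mathlib

set_option autoImplicit false

open MeasureTheory Set Filter Topology Metric

namespace Pool.Agent.V8H77.GM

/-- the determinant of two plane vectors -/
def dd (z w : ℝ × ℝ) : ℝ := z.1 * w.2 - z.2 * w.1

/-- the moment form -/
noncomputable def qf (C : Set (ℝ × ℝ)) (z z' : ℝ × ℝ) : ℝ := ∫ w in C, dd z w * dd z' w

lemma dd_cont (z : ℝ × ℝ) : Continuous (fun w => dd z w) := by unfold dd; fun_prop

lemma qf_int {C : Set (ℝ × ℝ)} (hC : IsCompact C) (z z' : ℝ × ℝ) :
    IntegrableOn (fun w => dd z w * dd z' w) C :=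
  ((dd_cont z).mul (dd_cont z')).continuousOn.integrableOn_compact hC

lemma qf_comm (C : Set (ℝ × ℝ)) (z z' : ℝ × ℝ) : qf C z z' = qf C z' z := by
  unfold qf; congr 1; ext w; ring

lemma qf_add {C : Set (ℝ × ℝ)} (hC : IsCompact C) (a b z : ℝ × ℝ) :
    qf C (a + b) z = qf C a z + qf C b z := by
  unfold qf
  rw [← integral_add (qf_int hC a z) (qf_int hC b z)]
  congr 1; ext w; simp only [dd, Prod.fst_add, Prod.snd_add]; ring

lemma qf_smul (C : Set (ℝ × ℝ)) (t : ℝ) (a z : ℝ × ℝ) :
    qf C (t • a) z = t * qf C a z := by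
  unfold qf
  rw [← integral_const_mul]
  congr 1; ext w; simp only [dd, Prod.smul_fst, Prod.smul_snd, smul_eq_mul]; ring

lemma qf_pos {C : Set (ℝ × ℝ)} (hC : IsCompact C) (h0 : C ∈ 𝓝 (0 : ℝ × ℝ)) {z : ℝ × ℝ}
    (hz : z ≠ 0) : 0 < qf C z z := by
  unfold qf
  rw [setIntegral_pos_iff_support_of_nonneg_ae (Eventually.of_forall fun w => mul_self_nonneg _)
    (qf_int hC z z)]
  have hopen : IsOpen (interior C ∩ {w | dd z w ≠ 0}) :=
    isOpen_interior.inter (isOpen_ne_fun (dd_cont z) continuous_const)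
  have hne : (interior C ∩ {w | dd z w ≠ 0}).Nonempty := by
    -- a small vector orthogonal to z
    have h1 : Tendsto (fun l : ℝ => l • ((-z.2, z.1) : ℝ × ℝ)) (𝓝[>] 0) (𝓝 0) := by
      have : Continuous fun l : ℝ => l • ((-z.2, z.1) : ℝ × ℝ) := by fun_prop
      have h3 := this.tendsto 0
      rw [zero_smul] at h3
      exact h3.mono_left nhdsWithin_le_nhds
    have h2 := (h1.eventually (isOpen_interior.mem_nhds (mem_interior_iff_mem_nhds.2 h0))).and
      self_mem_nhdsWithin
    obtain ⟨l, hl1, hl2⟩ := h2.exists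
    refine ⟨_, hl1, ?_⟩
    simp only [mem_ofPred_eq, dd, Prod.smul_fst, Prod.smul_snd, smul_eq_mul]
    have hz2 : 0 < z.1 ^ 2 + z.2 ^ 2 := by
      by_contra hcon
      apply hz
      have h4 : z.1 ^ 2 + z.2 ^ 2 ≤ 0 := not_lt.1 hcon
      have h5 : z.1 = 0 := by nlinarith [sq_nonneg z.1, sq_nonneg z.2]
      have h6 : z.2 = 0 := by nlinarith [sq_nonneg z.1, sq_nonneg z.2]
      exact Prod.ext h5 h6
    have hl : (0 : ℝ) < l := hl2
    have : z.1 * (l * z.1) - z.2 * (l * -z.2) = l * (z.1 ^ 2 + z.2 ^ 2) := by ring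
    rw [this]
    positivity
  refine (hopen.measure_pos volume hne).trans_le (measure_mono ?_)
  rintro w ⟨hw1, hw2⟩
  refine ⟨?_, interior_subset hw1⟩
  simpa using hw2

/-- A plane body with a reflection in every direction. -/
def HasRefl (C : Set (ℝ × ℝ)) : Prop :=
  ∀ c : ℝ × ℝ, c ≠ 0 → ∀ e : ℝ × ℝ, ∃ β : ℝ, ∀ s r : ℝ, s • e + r • c ∈ C →
    s • e + (2 * s * β - r) • c ∈ C

theorem plane_main {C : Set (ℝ × ℝ)} (hC : IsCompact C) (h0 : C ∈ 𝓝 (0 : ℝ × ℝ))
    (hr : HasRefl C) {a b : ℝ × ℝ} (hab : qf C a a = qf C b b) (ha : a ∈ C) : b ∈ C := by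
  by_cases hab' : a = b
  · rw [← hab']; exact ha
  set c := a - b with hc
  have hc0 : c ≠ 0 := sub_ne_zero.2 hab'
  set e : ℝ × ℝ := (-c.2, c.1) with he
  obtain ⟨β, hβ⟩ := hr c hc0 e
  set y : ℝ × ℝ := e + β • c with hy
  set n : ℝ := c.1 ^ 2 + c.2 ^ 2 with hn
  have hn0 : 0 < n := by
    by_contra hcon
    apply hc0
    have h4 : c.1 ^ 2 + c.2 ^ 2 ≤ 0 := not_lt.1 hcon
    have h5 : c.1 = 0 := by nlinarith [sq_nonneg c.1, sq_nonneg c.2]
    have h6 : c.2 = 0 := by nlinarith [sq_nonneg c.1, sq_nonneg c.2]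
    exact Prod.ext h5 h6
  have hyc : dd y c = -n := by
    simp only [hy, he, hn, dd, Prod.fst_add, Prod.snd_add, Prod.smul_fst, Prod.smul_snd,
      smul_eq_mul]
    ring
  -- the reflection
  let s : (ℝ × ℝ) →ₗ[ℝ] ℝ :=
    { toFun := fun z => dd z c / (-n)
      map_add' := by
        intro z w; simp only [dd, Prod.fst_add, Prod.snd_add]; ring
      map_smul' := by
        intro t z; simp only [dd, Prod.smul_fst, Prod.smul_snd, smul_eq_mul, RingHom.id_apply]
        ring }
  have hs : ∀ z, s z = dd z c / (-n) := fun z => rfl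
  have hsy : s y = 1 := by rw [hs, hyc, div_self (by linarith)]
  have hsc : s c = 0 := by
    rw [hs]
    have : dd c c = 0 := by unfold dd; ring
    rw [this, zero_div]
  let R : (ℝ × ℝ) →ₗ[ℝ] (ℝ × ℝ) := -LinearMap.id + (2 : ℝ) • s.smulRight y
  have hR : ∀ z, R z = -z + (2 * s z) • y := by
    intro z
    simp only [R, LinearMap.add_apply, LinearMap.neg_apply, LinearMap.id_apply,
      LinearMap.smul_apply, LinearMap.smulRight_apply, smul_smul]
  have hRR : ∀ z, R (R z) = z := by
    intro z
    rw [hR (R z), hR z, map_add, map_neg, map_smul, hsy, smul_eq_mul, neg_add, neg_neg]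
    rw [show 2 * (-s z + 2 * s z * 1) = 2 * s z by ring]
    abel
  have hRc : R c = -c := by rw [hR, hsc]; simp
  have hRy : R y = y := by
    rw [hR, hsy]
    module
  -- decomposition
  have hdec : ∀ z, ∃ r : ℝ, z = s z • e + r • c := by
    intro z
    refine ⟨(z.1 * c.1 + z.2 * c.2) / n, ?_⟩
    rw [hs]
    apply Prod.ext
    · simp only [he, dd, Prod.fst_add, Prod.smul_fst, smul_eq_mul]
      field_simp
      rw [hn]; ring
    · simp only [he, dd, Prod.snd_add, Prod.smul_snd, smul_eq_mul]
      field_simp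
      rw [hn]; ring
  have hRC : ∀ z ∈ C, R z ∈ C := by
    intro z hz
    obtain ⟨r, hr⟩ := hdec z
    have h1 := hβ (s z) r (by rw [← hr]; exact hz)
    have e1 : R z = s z • e + (2 * s z * β - r) • c := by
      rw [hR]
      conv_lhs => rw [hr]
      have : s (s z • e + r • c) = s z := by rw [← hr]
      rw [this, hy]
      module
    rw [e1]; exact h1
  have hpre : R ⁻¹' C = C := by
    apply Subset.antisymm
    · intro z hz
      have := hRC _ hz
      rwa [hRR] at this
    · intro z hz
      exact hRC z hz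
  have hdet : |LinearMap.det R| = 1 := by
    have h1 : R * R = 1 := LinearMap.ext hRR
    have h2 := congrArg LinearMap.det h1
    rw [map_mul, map_one] at h2
    have h3 : |LinearMap.det R| * |LinearMap.det R| = 1 := by rw [← abs_mul, h2, abs_one]
    have h4 := abs_nonneg (LinearMap.det R)
    nlinarith
  have hmp : MeasurePreserving R (volume : Measure (ℝ × ℝ)) volume := by
    refine ⟨R.continuous_of_finiteDimensional.measurable, ?_⟩
    have hne : LinearMap.det R ≠ 0 := by
      intro h; rw [h] at hdet; simp at hdet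
    rw [Measure.map_linearMap_addHaar_eq_smul_addHaar _ hne, abs_inv, hdet]
    simp
  have hemb : MeasurableEmbedding R := by
    have : Function.Involutive R := hRR
    exact (LinearEquiv.ofInvolutive R this).toContinuousLinearEquiv.toHomeomorph.measurableEmbedding
  have hddR : ∀ z w, dd (R z) (R w) = -dd z w := by
    intro z w
    obtain ⟨r, hr⟩ := hdec z
    obtain ⟨r', hr'⟩ := hdec w
    have e1 : R z = s z • y - (r - s z * β) • c := by
      rw [hR]; conv_lhs => rw [hr]
      have : s (s z • e + r • c) = s z := by rw [← hr]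
      rw [this, hy]; module
    have e2 : R w = s w • y - (r' - s w * β) • c := by
      rw [hR]; conv_lhs => rw [hr']
      have : s (s w • e + r' • c) = s w := by rw [← hr']
      rw [this, hy]; module
    have e3 : z = s z • y + (r - s z * β) • c := by
      conv_lhs => rw [hr]
      rw [hy]; module
    have e4 : w = s w • y + (r' - s w * β) • c := by
      conv_lhs => rw [hr']
      rw [hy]; module
    have g1 : ∀ p q p' q' : ℝ, dd (p • y + q • c) (p' • y + q' • c) = (p * q' - q * p') * dd y c := by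
      intro p q p' q'
      simp only [dd, Prod.fst_add, Prod.snd_add, Prod.smul_fst, Prod.smul_snd, smul_eq_mul]
      ring
    have h1 : dd z w = (s z * (r' - s w * β) - (r - s z * β) * s w) * dd y c := by
      conv_lhs => rw [e3, e4]
      exact g1 _ _ _ _
    have h2 : dd (R z) (R w) =
        (s z * (-(r' - s w * β)) - (-(r - s z * β)) * s w) * dd y c := by
      rw [e1, e2, sub_eq_add_neg (s z • y), sub_eq_add_neg (s w • y), ← neg_smul, ← neg_smul]
      exact g1 _ _ _ _
    rw [h1, h2]; ring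
  have hinv : ∀ z z', qf C (R z) (R z') = qf C z z' := by
    intro z z'
    unfold qf
    have h1 := hmp.setIntegral_preimage_emb hemb (fun w => dd (R z) w * dd (R z') w) C
    rw [hpre] at h1
    rw [← h1]
    congr 1
    ext w
    rw [hddR, hddR]; ring
  have hyc0 : qf C y c = 0 := by
    have h1 := hinv y c
    rw [hRy, hRc, qf_comm, show -c = (-1 : ℝ) • c by simp, qf_smul, qf_comm C c y] at h1
    linarith
  -- the decomposition of a + b
  obtain ⟨r, hr⟩ := hdec (a + b)
  have hab2 : a + b = s (a + b) • y + (r - s (a + b) * β) • c := by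
    conv_lhs => rw [hr]
    rw [hy]; module
  set l := s (a + b) with hl
  set m := r - l * β with hm
  have h1 : qf C (a + b) c = m * qf C c c := by
    rw [hab2, qf_add hC, qf_smul, qf_smul, hyc0]; ring
  have h2 : qf C (a + b) c = 0 := by
    rw [qf_comm, hc, sub_eq_add_neg, show -b = (-1 : ℝ) • b by simp, qf_add hC, qf_smul,
      qf_comm C a, qf_comm C b, qf_add hC, qf_add hC, qf_comm C b a, hab]
    ring
  have hm0 : m = 0 := by
    rw [h1] at h2
    rcases mul_eq_zero.1 h2 with h3 | h3
    · exact h3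
    · exact absurd h3 (qf_pos hC h0 hc0).ne'
  rw [hm0, zero_smul, add_zero] at hab2
  have hRa : R a = b := by
    have e1 : a = (1 / 2 : ℝ) • ((a + b) + c) := by rw [hc]; module
    rw [e1, map_smul, map_add, hRc, hab2, map_smul, hRy, ← hab2, hc]
    module
  rw [← hRa]
  exact hRC a ha

end Pool.Agent.V8H77.GM
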