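import Pool.Agent.V8H77.GM.Refl
import Pool.Agent.V8H77.GM.Plane

set_option autoImplicit false

open MeasureTheory Set Filter Topology Metric
open scoped RealInnerProductSpace ENNReal

namespace Pool.Agent.V8H77.GM

/-- a copy of the space without its norm -/
def Cp (d : ℕ) : Type := E d

noncomputable instance (d : ℕ) : AddCommGroup (Cp d) := inferInstanceAs (AddCommGroup (E d))
noncomputable instance (d : ℕ) : Module ℝ (Cp d) := inferInstanceAs (Module ℝ (E d))
instance (d : ℕ) : Module.Finite ℝ (Cp d) := inferInstanceAs (Module.Finite ℝ (E d))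

/-- Jordan - von Neumann -/
theorem exists_linear {d : ℕ} (N : E d → ℝ) (h0 : ∀ x, N x = 0 → x = 0)
    (hadd : ∀ x y, N (x + y) ≤ N x + N y) (hsm : ∀ (c : ℝ) x, N (c • x) = |c| * N x)
    (hpar : ∀ x y, N (x + y) ^ 2 + N (x - y) ^ 2 = 2 * (N x ^ 2 + N y ^ 2)) :
    ∃ T : E d ≃ₗ[ℝ] E d, ∀ x, N x = ‖T x‖ := by
  have hz : N 0 = 0 := by
    have := hsm 0 0
    simpa using this
  have hneg : ∀ x, N (-x) = N x := by
    intro x
    have := hsm (-1) x
    simpa using this
  let gn : AddGroupNorm (Cp d) :=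
    { toFun := N
      map_zero' := hz
      add_le' := hadd
      neg' := hneg
      eq_zero_of_map_eq_zero' := fun x hx => h0 x hx }
  let inst1 : NormedAddCommGroup (Cp d) := gn.toNormedAddCommGroup
  have hnorm : ∀ x : Cp d, ‖x‖ = N x := fun x => rfl
  let inst2 : NormedSpace ℝ (Cp d) :=
    { norm_smul_le := fun c x => by
        rw [hnorm, hnorm, Real.norm_eq_abs]
        exact (hsm c x).le }
  let inst3 : InnerProductSpace ℝ (Cp d) := InnerProductSpace.ofNorm ℝ (fun x y => by
    rw [hnorm, hnorm, hnorm, hnorm]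
    have := hpar x y
    simp only [sq] at this
    exact this)
  have hfin : Module.finrank ℝ (Cp d) = d := by
    have : Module.finrank ℝ (Cp d) = Module.finrank ℝ (E d) := rfl
    rw [this, finrank_euclideanSpace_fin]
  let b := (stdOrthonormalBasis ℝ (Cp d)).reindex (finCongr hfin)
  let T : E d ≃ₗ[ℝ] E d := (show E d ≃ₗ[ℝ] Cp d from LinearEquiv.refl ℝ (E d)).trans
    b.repr.toLinearEquiv
  have key : ∀ y : Cp d, ‖b.repr y‖ = N y := fun y => by
    rw [b.repr.norm_map]; exact hnorm y
  exact ⟨T, fun x => (key x).symm⟩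

open Pool.Agent.H318R3.St

variable {d : ℕ}

/-- the section by a plane -/
def plane (K : Set (E d)) (p q : E d) : Set (ℝ × ℝ) := {z | z.1 • p + z.2 • q ∈ K}

lemma gauge_homog {K : Set (E d)} {D : ℝ} (h : Ext K D) (t : ℝ) (x : E d) :
    gauge K (t • x) = |t| * gauge K x := by
  rcases le_total 0 t with ht | ht
  · rw [gauge_smul_of_nonneg ht, abs_of_nonneg ht, smul_eq_mul]
  · have e : t • x = (-t) • (-x) := by simp
    rw [e, gauge_smul_of_nonneg (by linarith : 0 ≤ -t), gauge_neg (fun x hx => h.symm x hx),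
      abs_of_nonpos ht, smul_eq_mul]

/-- the parallelogram identity -/
theorem gauge_par {K : Set (E d)} {D : ℝ} (h : Ext K D) (hd : 2 ≤ d) (p q : E d) :
    gauge K (p + q) ^ 2 + gauge K (p - q) ^ 2 = 2 * (gauge K p ^ 2 + gauge K q ^ 2) := by
  have hK0 : K ∈ 𝓝 (0 : E d) := mem_interior_iff_mem_nhds.1 h.zero_mem_int
  by_cases hli : LinearIndependent ℝ ![p, q]
  swap
  · rw [LinearIndependent.pair_iff] at hli
    push Not at hli
    obtain ⟨a, b, hab, hne⟩ := hli
    by_cases hb : b = 0
    · have ha : a ≠ 0 := fun ha => hne ha hb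
      rw [hb, zero_smul, add_zero, smul_eq_zero] at hab
      have hp : p = 0 := hab.resolve_left ha
      rw [hp, zero_add, zero_sub, gauge_zero]
      have := gauge_homog h (-1) q
      simp only [neg_smul, one_smul, abs_neg, abs_one, one_mul] at this
      rw [this]; ring
    · have hq : q = (-(a / b)) • p := by
        have h1 : b • q = -(a • p) := by
          rw [eq_neg_iff_add_eq_zero, add_comm]; exact hab
        have h2 : q = b⁻¹ • (b • q) := by rw [smul_smul, inv_mul_cancel₀ hb, one_smul]
        rw [h2, h1, smul_neg, smul_smul, neg_smul]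
        congr 2
        field_simp
      set t := -(a / b) with ht
      have e1 : p + q = (1 + t) • p := by rw [hq]; module
      have e2 : p - q = (1 - t) • p := by rw [hq]; module
      rw [e1, e2, hq, gauge_homog h, gauge_homog h, gauge_homog h, mul_pow, mul_pow, mul_pow,
        sq_abs, sq_abs, sq_abs]
      ring
  · -- the independent case
    let f : (ℝ × ℝ) →ₗ[ℝ] E d :=
      (LinearMap.fst ℝ ℝ ℝ).smulRight p + (LinearMap.snd ℝ ℝ ℝ).smulRight q
    have hf : ∀ z, f z = z.1 • p + z.2 • q := fun z => rfl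
    have hfc : Continuous f := f.continuous_of_finiteDimensional
    have hfinj : Function.Injective f := by
      rw [injective_iff_map_eq_zero]
      intro z hz
      rw [hf] at hz
      obtain ⟨h1, h2⟩ := LinearIndependent.pair_iff.1 hli _ _ hz
      exact Prod.ext h1 h2
    set C := plane K p q with hC
    have hCf : C = f ⁻¹' K := rfl
    have hCcomp : IsCompact C := by
      rw [hCf]
      exact (LinearMap.isClosedEmbedding_of_injective (f := f)
        (LinearMap.ker_eq_bot.2 hfinj)).isCompact_preimage h.comp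
    have hC0 : C ∈ 𝓝 (0 : ℝ × ℝ) := by
      rw [hCf]
      apply hfc.continuousAt.preimage_mem_nhds
      rw [map_zero]; exact hK0
    have hrefl : HasRefl C := by
      intro c hc e
      have hu : f c ≠ 0 := fun h0 => hc (hfinj (by rw [h0, map_zero]))
      obtain ⟨β, hβ⟩ := refl_gen h hd hu (f e)
      refine ⟨β, fun s r hz => ?_⟩
      rw [hCf] at hz ⊢
      change f (s • e + r • c) ∈ K at hz
      change f (s • e + (2 * s * β - r) • c) ∈ K
      rw [map_add, map_smul, map_smul] at hz ⊢
      exact hβ s r hz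
    have hgpos : ∀ z, z ≠ 0 → 0 < gauge K (f z) := by
      intro z hz
      rw [gauge_pos (absorbent_nhds_zero hK0)
        (NormedSpace.isVonNBounded_iff ℝ |>.2 h.comp.isBounded)]
      exact fun h0 => hz (hfinj (by rw [h0, map_zero]))
    have hmem : ∀ z, z ∈ C ↔ gauge K (f z) ≤ 1 := by
      intro z
      rw [gauge_le_one_iff_mem_closure h.conv hK0, h.comp.isClosed.closure_eq]
      rfl
    have hle : ∀ a b : ℝ × ℝ, a ≠ 0 → qf C a a = qf C b b →
        gauge K (f b) ≤ gauge K (f a) := by
      intro a b ha hab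
      have hga := hgpos a ha
      set t := (gauge K (f a))⁻¹ with ht
      have htp : 0 < t := inv_pos.2 hga
      have h1 : t • a ∈ C := by
        rw [hmem, map_smul, gauge_homog h, abs_of_pos htp, ht, inv_mul_cancel₀ hga.ne']
      have h2 : qf C (t • a) (t • a) = qf C (t • b) (t • b) := by
        rw [qf_smul, qf_comm, qf_smul, qf_smul, qf_comm C b, qf_smul, hab]
      have h3 := plane_main hCcomp hC0 hrefl h2 h1
      rw [hmem, map_smul, gauge_homog h, abs_of_pos htp, ht, inv_mul_le_iff₀ hga, mul_one] at h3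
      exact h3
    have heq : ∀ a b : ℝ × ℝ, a ≠ 0 → b ≠ 0 → qf C a a = qf C b b →
        gauge K (f b) = gauge K (f a) := fun a b ha hb hab =>
      le_antisymm (hle a b ha hab) (hle b a hb hab.symm)
    set z0 : ℝ × ℝ := (1, 0) with hz0
    have hz0' : z0 ≠ 0 := by rw [hz0]; simp
    have hq0 := qf_pos hCcomp hC0 hz0'
    have hform : ∀ z, gauge K (f z) ^ 2 = gauge K (f z0) ^ 2 / qf C z0 z0 * qf C z z := by
      intro z
      by_cases hz : z = 0
      · rw [hz, map_zero, gauge_zero]
        have : qf C 0 0 = 0 := by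
          have := qf_smul C 0 (0 : ℝ × ℝ) 0
          simpa using this
        rw [this]; ring
      · have hqz := qf_pos hCcomp hC0 hz
        set t := Real.sqrt (qf C z0 z0 / qf C z z) with ht
        have htp : 0 < t := Real.sqrt_pos.2 (div_pos hq0 hqz)
        have ht2 : t ^ 2 = qf C z0 z0 / qf C z z := Real.sq_sqrt (div_pos hq0 hqz).le
        have h1 : qf C z0 z0 = qf C (t • z) (t • z) := by
          rw [qf_smul, qf_comm C z, qf_smul, ← mul_assoc, ← sq, ht2]
          field_simp
        have h2 := heq z0 (t • z) hz0' (smul_ne_zero htp.ne' hz) h1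
        rw [map_smul, gauge_homog h, abs_of_pos htp] at h2
        rw [← h2, mul_pow, ht2]
        field_simp
    have k1 := hform (1, 1)
    have k2 := hform (1, -1)
    have k3 := hform (1, 0)
    have k4 := hform (0, 1)
    simp only [hf, one_smul, zero_smul, neg_smul, add_zero, zero_add, ← sub_eq_add_neg]
      at k1 k2 k3 k4
    rw [k1, k2, k3, k4]
    have e1 : ((1, 1) : ℝ × ℝ) = (1, 0) + (0, 1) := by simp
    have e2 : ((1, -1) : ℝ × ℝ) = (1, 0) + (-1 : ℝ) • (0, 1) := by simp
    have g1 : qf C (1, 1) (1, 1) + qf C (1, -1) (1, -1) =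
        2 * (qf C (1, 0) (1, 0) + qf C (0, 1) (0, 1)) := by
      rw [e1, e2]
      simp only [qf_add hCcomp, qf_smul, qf_comm C (1, 0) ((1, 0) + (0, 1)),
        qf_comm C (0, 1) ((1, 0) + (0, 1)), qf_comm C (1, 0) ((1, 0) + (-1 : ℝ) • (0, 1)),
        qf_comm C (0, 1) ((1, 0) + (-1 : ℝ) • (0, 1))]
      ring
    rw [← mul_add, g1]; ring

/-- Extremal bodies are ellipsoids. -/
theorem ext_ellipsoid {K : Set (E d)} {D : ℝ} (h : Ext K D) (hd : 2 ≤ d) :
    ∃ T : E d ≃ₗ[ℝ] E d, K = T '' closedBall 0 1 := by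
  have hK0 : K ∈ 𝓝 (0 : E d) := mem_interior_iff_mem_nhds.1 h.zero_mem_int
  obtain ⟨T, hT⟩ := exists_linear (gauge K) (by
      intro x hx
      by_contra hne
      have := (gauge_pos (absorbent_nhds_zero hK0)
        (NormedSpace.isVonNBounded_iff ℝ |>.2 h.comp.isBounded)).2 hne
      linarith) (gauge_add_le h.conv (absorbent_nhds_zero hK0)) (gauge_homog h)
    (gauge_par h hd)
  refine ⟨T.symm, ?_⟩
  ext x
  constructor
  · intro hx
    refine ⟨T x, ?_, T.symm_apply_apply x⟩
    rw [mem_closedBall_zero_iff, ← hT]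
    rw [gauge_le_one_iff_mem_closure h.conv hK0, h.comp.isClosed.closure_eq]
    exact hx
  · rintro ⟨y, hy, rfl⟩
    rw [mem_closedBall_zero_iff] at hy
    have h1 : gauge K (T.symm y) ≤ 1 := by rw [hT, T.apply_symm_apply]; exact hy
    rw [gauge_le_one_iff_mem_closure h.conv hK0, h.comp.isClosed.closure_eq] at h1
    exact h1

end Pool.Agent.V8H77.GM
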