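import Mathlib

set_option autoImplicit false

open Set Filter Topology

namespace Pool.Agent.V8H77.GM

/-- The elementary lemma on midpoints. -/
lemma beta_const {s0 : ℝ} {β l α : ℝ → ℝ}
    (h1 : ∀ s ∈ Ioo 0 s0, ∀ s' ∈ Ioo 0 s0,
      (s' * β s' + l s') - (s * β s + l s) ≤ (s' - s) * (β s - α s))
    (h2 : ∀ s ∈ Ioo 0 s0, ∀ s' ∈ Ioo 0 s0,
      (s' - s) * (β s + α s) ≤ (s' * β s' - l s') - (s * β s - l s)) :
    ∀ s ∈ Ioo 0 s0, ∀ s' ∈ Ioo 0 s0, β s = β s' := by
  have key : ∀ s ∈ Ioo 0 s0, ∀ t ∈ Ioo 0 s0, s ≤ t → ∀ r, 0 < r → r ≤ s →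
      |β t - β s| ≤ (t - s) * (α t - α s) / (2 * r) := by
    intro s hs t ht hst r hr hrs
    have a1 := h1 s hs t ht
    have a2 := h1 t ht s hs
    have a3 := h2 s hs t ht
    have a4 := h2 t ht s hs
    have hα : (s + t) * |β t - β s| ≤ (t - s) * (α t - α s) := by
      rw [← abs_of_pos (show 0 < s + t by linarith [hs.1, ht.1]), ← abs_mul, abs_le]
      constructor <;> nlinarith
    rw [le_div_iff₀ (by positivity)]
    have h3 : |β t - β s| * (2 * r) ≤ (s + t) * |β t - β s| := by
      have := abs_nonneg (β t - β s)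
      nlinarith
    linarith
  have main : ∀ s ∈ Ioo 0 s0, ∀ t ∈ Ioo 0 s0, s < t → β s = β t := by
    intro s hs t ht hst
    have hbound : ∀ n : ℕ, 0 < n → |β t - β s| ≤ (t - s) / n * (α t - α s) / (2 * s) := by
      intro n hn
      have hn' : (0 : ℝ) < n := by exact_mod_cast hn
      set x : ℕ → ℝ := fun k => s + k * ((t - s) / n) with hx
      have hδ : 0 < (t - s) / n := div_pos (by linarith) hn'
      have hx0 : x 0 = s := by simp [hx]
      have hxn : x n = t := by simp only [hx]; field_simp; ring
      have hmem : ∀ k ≤ n, x k ∈ Ioo 0 s0 := by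
        intro k hk
        have hk' : (k : ℝ) ≤ n := by exact_mod_cast hk
        have h5 : (k : ℝ) * ((t - s) / n) ≤ n * ((t - s) / n) := by gcongr
        have h6 : (n : ℝ) * ((t - s) / n) = t - s := by field_simp
        have h7 : 0 ≤ (k : ℝ) * ((t - s) / n) := by positivity
        constructor
        · simp only [hx]; linarith [hs.1]
        · simp only [hx]; linarith [ht.2]
      have hstep : ∀ k < n, |β (x (k + 1)) - β (x k)| ≤
          (t - s) / n * (α (x (k + 1)) - α (x k)) / (2 * s) := by
        intro k hk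
        have h5 : x (k + 1) - x k = (t - s) / n := by
          simp only [hx]; push_cast; ring
        have h6 := key (x k) (hmem k hk.le) (x (k + 1)) (hmem (k + 1) hk) (by linarith) s hs.1 (by
          simp only [hx]
          have : 0 ≤ (k : ℝ) * ((t - s) / n) := by positivity
          linarith)
        rwa [h5] at h6
      calc |β t - β s| = |∑ k ∈ Finset.range n, (β (x (k + 1)) - β (x k))| := by
            rw [Finset.sum_range_sub (fun k => β (x k)), hx0, hxn]
        _ ≤ ∑ k ∈ Finset.range n, |β (x (k + 1)) - β (x k)| := Finset.abs_sum_le_sum_abs _ _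
        _ ≤ ∑ k ∈ Finset.range n, (t - s) / n * (α (x (k + 1)) - α (x k)) / (2 * s) :=
            Finset.sum_le_sum fun k hk => hstep k (Finset.mem_range.1 hk)
        _ = (t - s) / n * (α t - α s) / (2 * s) := by
            rw [← Finset.sum_div, ← Finset.mul_sum, Finset.sum_range_sub (fun k => α (x k)), hx0,
              hxn]
    have hlim : Tendsto (fun n : ℕ => (t - s) / n * (α t - α s) / (2 * s)) atTop (𝓝 0) := by
      have h5 : Tendsto (fun n : ℕ => (t - s) / (n : ℝ)) atTop (𝓝 0) :=
        tendsto_const_div_atTop_nhds_zero_nat (t - s)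
      have h6 := (h5.mul_const (α t - α s)).div_const (2 * s)
      simpa using h6
    have hle : |β t - β s| ≤ 0 := by
      apply ge_of_tendsto hlim
      filter_upwards [eventually_gt_atTop 0] with n hn
      exact hbound n hn
    have h0 := abs_nonpos_iff.1 hle
    linarith
  intro s hs t ht
  rcases lt_trichotomy s t with h | h | h
  · exact main s hs t ht h
  · rw [h]
  · exact (main t ht s hs h).symm

end Pool.Agent.V8H77.GM
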