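import Pool.Agent.V8H77.GM.Min
import Pool.Agent.V8H77.GM.Real

set_option autoImplicit false

open MeasureTheory Set Filter Topology Metric
open scoped RealInnerProductSpace ENNReal

namespace Pool.Agent.V8H77.GM

open Pool.Agent.H318R3.St

variable {d : ℕ}

/-- the volume bound -/
theorem vol_le {K : Set (E d)} (hK : IsCompact K) (hc : Convex ℝ K)
    (hint : (interior K).Nonempty) {c : ℝ}
    (h : ∀ v : Fin d → E d, (∀ i, v i ∈ K) → |om d v| ≤ c) :
    volume K ≤ ENNReal.ofReal c * volume (closedBall (0 : E d) 1) := by
  obtain ⟨r, hr, h1, h2⟩ := exists_ball hK hc hint h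
  rw [h1, Measure.addHaar_closedBall' _ _ hr]
  simp only [finrank_euclideanSpace, Fintype.card_fin]
  gcongr

lemma om_closure {S : Set (E d)} {c : ℝ} (h : ∀ v : Fin d → E d, (∀ i, v i ∈ S) → |om d v| ≤ c)
    (v : Fin d → E d) (hv : ∀ i, v i ∈ closure S) : |om d v| ≤ c := by
  have h1 : IsClosed {v : Fin d → E d | |om d v| ≤ c} :=
    isClosed_le om_continuous.abs continuous_const
  have h2 : Set.pi univ (fun _ : Fin d => S) ⊆ {v : Fin d → E d | |om d v| ≤ c} :=
    fun w hw => h w fun i => hw i (mem_univ i)
  have h3 := closure_minimal h2 h1
  rw [closure_pi_set] at h3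
  exact h3 (fun i _ => hv i)

/-- extremal bodies -/
structure Ext (K : Set (E d)) (D : ℝ) : Prop where
  comp : IsCompact K
  conv : Convex ℝ K
  int : (interior K).Nonempty
  symm : ∀ x ∈ K, -x ∈ K
  det : ∀ v : Fin d → E d, (∀ i, v i ∈ K) → |om d v| ≤ D
  vol : volume K = ENNReal.ofReal D * volume (closedBall (0 : E d) 1)

lemma Ext.vol_pos {K : Set (E d)} {D : ℝ} (h : Ext K D) : volume K ≠ 0 :=
  ((isOpen_interior.measure_pos volume h.int).trans_le (measure_mono interior_subset)).ne'

lemma Ext.pos {K : Set (E d)} {D : ℝ} (h : Ext K D) : 0 < D := by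
  by_contra hD
  have h1 := h.vol
  rw [ENNReal.ofReal_of_nonpos (not_lt.1 hD), zero_mul] at h1
  exact h.vol_pos h1

lemma sym_symm {u : E d} (hu : ‖u‖ = 1) {K : Set (E d)} (hK : IsCompact K) (hc : Convex ℝ K)
    (hs : ∀ x ∈ K, -x ∈ K) : ∀ x ∈ sym u K, -x ∈ sym u K := by
  intro x hx
  rw [sym_eq_image hu hK hc] at hx ⊢
  obtain ⟨⟨p, q⟩, ⟨hp, hq, hpq⟩, rfl⟩ := hx
  refine ⟨(-p, -q), ⟨hs p hp, hs q hq, ?_⟩, ?_⟩
  · simp only at hpq ⊢
    have e : -p - -q = -(p - q) := by abel
    rw [e, inner_neg_left, neg_smul, ← hpq]
  · simp only [map_neg]
    rw [← neg_add, smul_neg]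

lemma Ext.sym {K : Set (E d)} {D : ℝ} (h : Ext K D) {u : E d} (hu : ‖u‖ = 1) :
    Ext (sym u K) D where
  comp := sym_isCompact hu h.comp h.conv
  conv := sym_convex hu h.comp h.conv
  int := interior_nonempty_of_vol (sym_convex hu h.comp h.conv)
    (sym_isCompact hu h.comp h.conv).isClosed (by
      rw [sym_volume hu h.comp h.conv]; exact h.vol_pos)
  symm := sym_symm hu h.comp h.conv h.symm
  det := om_sym hu h.comp h.conv h.det
  vol := (sym_volume hu h.comp h.conv).trans h.vol

lemma Ext.zero_mem_int {K : Set (E d)} {D : ℝ} (h : Ext K D) : (0 : E d) ∈ interior K := by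
  obtain ⟨x, hx⟩ := h.int
  have h1 : -x ∈ interior K := by
    have h2 : IsOpen (-(interior K)) := isOpen_interior.neg
    have h3 : -(interior K) ⊆ K := by
      intro y hy
      have := h.symm _ (interior_subset hy)
      simpa using this
    exact interior_maximal h3 h2 (by simpa using hx)
  have h2 := h.conv.interior hx h1 (show (0:ℝ) ≤ 1/2 by norm_num) (show (0:ℝ) ≤ 1/2 by norm_num)
    (by norm_num)
  simpa using h2

/-- In an extremal body every boundary point is a member of a maximal frame. -/
lemma Ext.frame {K : Set (E d)} {D : ℝ} (h : Ext K D) (hd : 2 ≤ d) {p : E d} (hp : p ∈ K)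
    (hb : ∀ ε : ℝ, 0 < ε → (1 + ε) • p ∉ K) (i0 : Fin d) :
    ∃ v : Fin d → E d, (∀ i, v i ∈ K) ∧ v i0 = p ∧ om d v = D := by
  classical
  have hD := h.pos
  -- step 1: approximate frames
  have step : ∀ ε : ℝ, 0 < ε → ∃ v : Fin d → E d, (∀ i, v i ∈ K) ∧
      D < (1 + ε) * |om d (Function.update v i0 p)| := by
    intro ε hε
    set q : E d := (1 + ε) • p with hq
    set S : Set (E d) := K ∪ {q, -q} with hS
    have hSb : Bornology.IsBounded S :=
      h.comp.isBounded.union (Set.toFinite {q, -q}).isBounded
    have hScomp : IsCompact (closure (convexHull ℝ S)) :=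
      (isBounded_convexHull.2 hSb).isCompact_closure
    have hScc : Convex ℝ (closure (convexHull ℝ S)) := (convex_convexHull ℝ S).closure
    have hSS : S ⊆ closure (convexHull ℝ S) := (subset_convexHull ℝ S).trans subset_closure
    have hKS : K ⊆ closure (convexHull ℝ S) := subset_union_left.trans hSS
    have hint : (interior (closure (convexHull ℝ S))).Nonempty := h.int.mono (interior_mono hKS)
    have hvol : volume K < volume (closure (convexHull ℝ S)) := by
      apply lt_of_le_of_ne (measure_mono hKS)
      intro heq
      have h1 : volume (closure (convexHull ℝ S) \ K) = 0 := by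
        rw [measure_sdiff hKS h.comp.measurableSet.nullMeasurableSet h.comp.measure_lt_top.ne,
          heq, tsub_self]
      have h2 := subset_of_ae hScc hScomp.isClosed h.comp.isClosed
        (by rw [← heq]; exact h.vol_pos) h1
      exact hb ε hε (h2 (hSS (by rw [hS]; right; simp [hq])))
    by_contra hcon
    push Not at hcon
    have hall : ∀ v : Fin d → E d, (∀ i, v i ∈ S) → |om d v| ≤ D := by
      intro v hv
      by_cases hK : ∀ i, v i ∈ K
      · exact h.det v hK
      · push Not at hK
        obtain ⟨i, hi⟩ := hK
        have hvi : v i = q ∨ v i = -q := by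
          rcases hv i with h1 | h1
          · exact absurd h1 hi
          · simpa using h1
        by_cases hj : ∃ j, j ≠ i ∧ v j ∉ K
        · obtain ⟨j, hji, hj⟩ := hj
          have hvj : v j = q ∨ v j = -q := by
            rcases hv j with h1 | h1
            · exact absurd h1 hj
            · simpa using h1
          have hzero : om d v = 0 := by
            rcases hvi with h1 | h1 <;> rcases hvj with h2 | h2
            · exact (om d).map_eq_zero_of_eq v (h1.trans h2.symm) hji.symm
            · have e1 : v = Function.update v j (-q) := by rw [← h2]; simp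
              have e2 : om d (Function.update v j (-q)) = - om d (Function.update v j q) :=
                (om d).map_update_neg v j q
              rw [e1, e2, (om d).map_eq_zero_of_eq (Function.update v j q) (i := i) (j := j)
                (by rw [Function.update_of_ne hji.symm, Function.update_self, h1]) hji.symm]
              simp
            · have e1 : v = Function.update v j q := by rw [← h2]; simp
              have e2 : om d (Function.update v j q) = - om d (Function.update v j (-q)) := by
                rw [(om d).map_update_neg v j q, neg_neg]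
              rw [e1, e2, (om d).map_eq_zero_of_eq (Function.update v j (-q)) (i := i) (j := j)
                (by rw [Function.update_of_ne hji.symm, Function.update_self, h1]) hji.symm]
              simp
            · exact (om d).map_eq_zero_of_eq v (h1.trans h2.symm) hji.symm
          rw [hzero]; simpa using hD.le
        · push Not at hj
          -- swap i and i0
          set w : Fin d → E d := v ∘ Equiv.swap i i0 with hw
          have h1 : |om d v| = |om d w| := by
            rw [hw, (om d).map_perm]
            rcases Int.units_eq_one_or (Equiv.Perm.sign (Equiv.swap i i0)) with h2 | h2 <;>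
              simp [h2]
          have hw0 : w i0 = v i := by simp [hw]
          have hwK : ∀ j, j ≠ i0 → w j ∈ K := by
            intro j hj0
            apply hj
            intro h2
            apply hj0
            have := congrArg (Equiv.swap i i0) h2
            simpa using this
          -- update at i0 by a member of K
          set w' : Fin d → E d := Function.update w i0 p with hw'
          have hw'K : ∀ j, w' j ∈ K := by
            intro j
            by_cases hj0 : j = i0
            · rw [hj0, hw', Function.update_self]; exact hp
            · rw [hw', Function.update_of_ne hj0]; exact hwK j hj0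
          have h3 := hcon w' hw'K
          have h4 : Function.update w' i0 p = w' := by simp [hw']
          rw [h4] at h3
          have h5 : |om d w| = (1 + ε) * |om d w'| := by
            have e1 : w = Function.update w i0 (v i) := by rw [← hw0]; simp
            rw [e1]
            have e2 : om d (Function.update w i0 q) = (1 + ε) * om d w' := by
              rw [hq, (om d).map_update_smul, smul_eq_mul]
            rcases hvi with h6 | h6
            · rw [h6, e2, abs_mul, abs_of_pos (by linarith : (0:ℝ) < 1 + ε)]
            · rw [h6, (om d).map_update_neg, abs_neg, e2, abs_mul,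
                abs_of_pos (by linarith : (0:ℝ) < 1 + ε)]
          rw [h1, h5]; exact h3
    have h2 := vol_le hScomp hScc hint (fun v hv => om_closure (om_hull hall) v hv)
    rw [← h.vol] at h2
    exact absurd hvol (not_lt.2 h2)
  -- step 2: the maximum
  have hcomp : IsCompact (Set.pi univ fun _ : Fin d => K) := isCompact_univ_pi fun _ => h.comp
  have hne : (Set.pi univ fun _ : Fin d => K).Nonempty := ⟨fun _ => p, fun _ _ => hp⟩
  have hcont : Continuous fun v : Fin d → E d => |om d (Function.update v i0 p)| := by
    apply Continuous.abs
    apply om_continuous.comp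
    exact continuous_id.update i0 continuous_const
  obtain ⟨v, hv, hmax⟩ := hcomp.exists_isMaxOn hne hcont.continuousOn
  have h1 : D ≤ |om d (Function.update v i0 p)| := by
    by_contra hcon
    push Not at hcon
    set m := |om d (Function.update v i0 p)| with hm
    have hm0 : 0 ≤ m := abs_nonneg _
    obtain ⟨w, hw, hw2⟩ := step ((D - m) / (2 * D)) (by
      apply div_pos <;> linarith)
    have h2 : |om d (Function.update w i0 p)| ≤ m := hmax (fun i _ => hw i)
    have h3 : (1 + (D - m) / (2 * D)) * |om d (Function.update w i0 p)| ≤
        (1 + (D - m) / (2 * D)) * m := by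
      apply mul_le_mul_of_nonneg_left h2
      have : 0 < (D - m) / (2 * D) := by apply div_pos <;> linarith
      linarith
    have h4 : (1 + (D - m) / (2 * D)) * m ≤ D := by
      have : (D - m) / (2 * D) * m ≤ (D - m) / (2 * D) * D := by
        apply mul_le_mul_of_nonneg_left hcon.le
        apply div_nonneg <;> linarith
      have e : (D - m) / (2 * D) * D = (D - m) / 2 := by field_simp
      nlinarith
    linarith
  set w : Fin d → E d := Function.update v i0 p with hw
  have hwK : ∀ i, w i ∈ K := by
    intro j
    by_cases hj0 : j = i0
    · rw [hj0, hw, Function.update_self]; exact hp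
    · rw [hw, Function.update_of_ne hj0]; exact hv j (mem_univ _)
  have hw0 : w i0 = p := by rw [hw, Function.update_self]
  have h2 : |om d w| = D := le_antisymm (h.det w hwK) h1
  rcases abs_eq hD.le |>.1 h2 with h3 | h3
  · exact ⟨w, hwK, hw0, h3⟩
  · obtain ⟨j, hj⟩ : ∃ j : Fin d, j ≠ i0 := by
      have : Nontrivial (Fin d) := Fin.nontrivial_iff_two_le.2 hd
      exact exists_ne i0
    refine ⟨Function.update w j (-(w j)), ?_, ?_, ?_⟩
    · intro i
      by_cases hij : i = j
      · rw [hij, Function.update_self]; exact h.symm _ (hwK j)
      · rw [Function.update_of_ne hij]; exact hwK i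
    · rw [Function.update_of_ne hj.symm]; exact hw0
    · rw [(om d).map_update_neg]
      simp [h3]

end Pool.Agent.V8H77.GM
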