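import Pool.Agent.V8H77.GM.Det

set_option autoImplicit false

open MeasureTheory Set Filter Topology Metric
open scoped RealInnerProductSpace ENNReal

namespace Pool.Agent.V8H77.GM

open Pool.Agent.H318R3.St

section strict

variable {F : Type*} [NormedAddCommGroup F] [InnerProductSpace ℝ F] [FiniteDimensional ℝ F]
  [MeasurableSpace F] [BorelSpace F]

lemma lint_Icc (A a b : ℝ) (hA : 0 ≤ A) (hab : a ≤ b) :
    ∫⁻ s in Icc a b, ENNReal.ofReal (A + s ^ 2) =
      ENNReal.ofReal ((b - a) * A + (b ^ 3 - a ^ 3) / 3) := by
  have h1 : IntegrableOn (fun s : ℝ => A + s ^ 2) (Icc a b) :=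
    (by fun_prop : Continuous fun s : ℝ => A + s ^ 2).continuousOn.integrableOn_Icc
  rw [← ofReal_integral_eq_lintegral_ofReal h1 (Eventually.of_forall fun s => by positivity)]
  congr 1
  rw [integral_Icc_eq_integral_Ioc, ← intervalIntegral.integral_of_le hab]
  rw [intervalIntegral.integral_add (by simp) (by apply Continuous.intervalIntegrable; fun_prop),
    integral_pow]
  simp
  norm_num

lemma norm_line {u : F} (hu : ‖u‖ = 1) (x : F) (s : ℝ) :
    ‖foot u x + s • u‖ ^ 2 = ‖foot u x‖ ^ 2 + s ^ 2 := by
  rw [norm_add_sq_real, inner_smul_right, foot_inner hu, norm_smul, hu]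
  simp

lemma lint_chord (R : ℝ) {u : F} (hu : ‖u‖ = 1) (x : F) {a b : ℝ} (hab : a ≤ b) :
    ∫⁻ s in Icc a b, ENNReal.ofReal (‖foot u x + s • u‖ ^ 2 + 4 * R ^ 2) =
      ENNReal.ofReal ((b - a) * (‖foot u x‖ ^ 2 + 4 * R ^ 2) + (b ^ 3 - a ^ 3) / 3) := by
  rw [← lint_Icc _ a b (by positivity) hab]
  congr 1
  ext s
  rw [norm_line hu]
  congr 1
  ring

/-- If the second moment does not decrease then the body is symmetric in the hyperplane. -/
theorem refl_mem (R : ℝ) {u : F} (hu : ‖u‖ = 1) {K : Set F} (hK : IsCompact K)
    (hc : Convex ℝ K) (hv : volume K ≠ 0) (h : JJ R K ≤ JJ R (sym u K)) :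
    ∀ y ∈ K, refl u y ∈ K := by
  set g : F → ℝ≥0∞ := fun x => ENNReal.ofReal (‖x‖ ^ 2 + 4 * R ^ 2) with hg
  have hgm : Measurable g := by fun_prop
  have hfoot : Measurable (fun x : F => foot u x) := by unfold foot; fun_prop
  have hmeas : ∀ A : Set F, MeasurableSet A → Measurable fun x : F =>
      ∫⁻ s in chord u (foot u x) A, g (foot u x + s • u) := by
    intro A hA
    have h1 : ∀ x : F, ∫⁻ s in chord u (foot u x) A, g (foot u x + s • u) =
        ∫⁻ s : ℝ, A.indicator g (foot u x + s • u) := by
      intro x
      have hm : MeasurableSet (chord u (foot u x) A) := by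
        apply hA.preimage; fun_prop
      rw [← lintegral_indicator hm]
      rfl
    simp_rw [h1]
    apply Measurable.lintegral_prod_right'
      (f := fun p : F × ℝ => A.indicator g (foot u p.1 + p.2 • u))
    apply (hgm.indicator hA).comp
    exact (hfoot.comp measurable_fst).add (measurable_snd.smul_const u)
  have e1 := setLIntegral_line hu g hgm hK.measurableSet
  have e2 := setLIntegral_line hu g hgm (sym_isCompact hu hK hc).measurableSet
  have hJ1 : JJ R K = ∫⁻ x in slab u, ∫⁻ s in chord u (foot u x) K, g (foot u x + s • u) := e1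
  have hJ2 : JJ R (sym u K) =
      ∫⁻ x in slab u, ∫⁻ s in chord u (foot u x) (sym u K), g (foot u x + s • u) := e2
  have hle : ∀ x, ∫⁻ s in chord u (foot u x) (sym u K), g (foot u x + s • u) ≤
      ∫⁻ s in chord u (foot u x) K, g (foot u x + s • u) := by
    intro x
    have hx := foot_inner hu x
    rcases chord_cases hu (foot u x) hK hc with h1 | ⟨a, b, hab, h1⟩
    · rw [h1, chord_sym_empty hu hx h1]
    · rw [h1, chord_sym_Icc hu hx hab h1, hg]
      simp only
      rw [lint_chord R hu x hab, lint_chord R hu x (by linarith)]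
      apply ENNReal.ofReal_le_ofReal
      nlinarith [mul_nonneg (sub_nonneg.2 hab) (sq_nonneg (a + b))]
  have hfin : JJ R (sym u K) ≠ ⊤ := by
    obtain ⟨C, hC⟩ := (sym_isCompact hu hK hc).isBounded.subset_closedBall 0
    have h1 : JJ R (sym u K) ≤ ∫⁻ x in sym u K, ENNReal.ofReal (C ^ 2 + 4 * R ^ 2) := by
      apply setLIntegral_mono measurable_const
      intro x hx
      apply ENNReal.ofReal_le_ofReal
      have h2 := mem_closedBall_zero_iff.1 (hC hx)
      have h3 := norm_nonneg x
      nlinarith
    rw [setLIntegral_const] at h1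
    exact (h1.trans_lt (ENNReal.mul_lt_top ENNReal.ofReal_lt_top
      (sym_isCompact hu hK hc).measure_lt_top)).ne
  have hae := ae_eq_of_ae_le_of_lintegral_le (μ := volume.restrict (slab u))
    (Eventually.of_forall hle) (by rw [← hJ2]; exact hfin) (hmeas K hK.measurableSet).aemeasurable
    (by rw [← hJ1, ← hJ2]; exact h)
  have hmr : MeasurableSet (refl u ⁻¹' K) :=
    hK.measurableSet.preimage (refl u).continuous.measurable
  have hnull : volume (K \ (refl u ⁻¹' K)) = 0 := by
    have e3 := setLIntegral_line hu (fun _ => (1 : ℝ≥0∞)) measurable_const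
      (hK.measurableSet.diff hmr)
    rw [setLIntegral_one] at e3
    rw [e3]
    have : ∀ᵐ x ∂(volume.restrict (slab u)),
        ∫⁻ _ in chord u (foot u x) (K \ (refl u ⁻¹' K)), (1 : ℝ≥0∞) = 0 := by
      filter_upwards [hae] with x hx
      rw [setLIntegral_one]
      have hx0 := foot_inner hu x
      rcases chord_cases hu (foot u x) hK hc with h1 | ⟨a, b, hab, h1⟩
      · have : chord u (foot u x) (K \ (refl u ⁻¹' K)) ⊆ chord u (foot u x) K := fun s hs => hs.1
        rw [h1] at this
        exact measure_mono_null this (by simp)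
      · rw [h1, chord_sym_Icc hu hx0 hab h1, hg] at hx
        simp only at hx
        rw [lint_chord R hu x hab, lint_chord R hu x (by linarith)] at hx
        have hA : 0 ≤ ‖foot u x‖ ^ 2 + 4 * R ^ 2 := by positivity
        have h3 : 0 ≤ b ^ 3 - a ^ 3 := by
          nlinarith [mul_nonneg (sub_nonneg.2 hab) (add_nonneg (sq_nonneg (a + b))
            (add_nonneg (sq_nonneg a) (sq_nonneg b)))]
        have h4 : 0 ≤ ((b - a) / 2) ^ 3 - (-((b - a) / 2)) ^ 3 := by
          have : 0 ≤ (b - a) / 2 := by linarith
          have h5 := pow_nonneg this 3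
          nlinarith
        rw [ENNReal.ofReal_eq_ofReal_iff] at hx
        · have h5 : (b - a) * (a + b) ^ 2 = 0 := by nlinarith
          rcases mul_eq_zero.1 h5 with h6 | h6
          · have hab' : a = b := by linarith
            have : chord u (foot u x) (K \ (refl u ⁻¹' K)) ⊆ Icc a b := by
              rw [← h1]; exact fun s hs => hs.1
            rw [hab', Icc_self] at this
            exact measure_mono_null this (by simp)
          · have h7 : a + b = 0 := by
              exact pow_eq_zero_iff (two_ne_zero) |>.1 h6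
            have : chord u (foot u x) (K \ (refl u ⁻¹' K)) ⊆ ∅ := by
              rintro s ⟨hs1, hs2⟩
              apply hs2
              have hs3 : s ∈ chord u (foot u x) K := hs1
              rw [h1] at hs3
              have hs4 : -s ∈ chord u (foot u x) K := by
                rw [h1]
                constructor <;> linarith [hs3.1, hs3.2]
              exact (chord_refl hu hx0 K s).2 hs4
            exact measure_mono_null this (by simp)
        · have := mul_nonneg (show 0 ≤ (b - a) / 2 - -((b - a) / 2) by linarith) hA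
          linarith
        · have := mul_nonneg (sub_nonneg.2 hab) hA
          linarith
    rw [lintegral_congr_ae this]
    simp
  have hsub := subset_of_ae hc hK.isClosed (hK.isClosed.preimage (refl u).continuous) hv hnull
  exact fun y hy => hsub hy

end strict

end Pool.Agent.V8H77.GM
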