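import Pool.Agent.V8H77.GM.Ext

set_option autoImplicit false

open MeasureTheory Set Filter Topology Metric
open scoped RealInnerProductSpace ENNReal

namespace Pool.Agent.V8H77.GM

open Pool.Agent.H318R3.St

variable {d : ℕ}

lemma chord_nonempty_of_le {K : Set (E d)} (hc : Convex ℝ K) (h0 : (0 : E d) ∈ K) {u x : E d}
    {s0 s : ℝ} (hs0 : 0 < s0) (hs : 0 ≤ s) (hss : s ≤ s0) (hne : (chord u (s0 • x) K).Nonempty) :
    (chord u (s • x) K).Nonempty := by
  obtain ⟨r, hr⟩ := hne
  have hr' : s0 • x + r • u ∈ K := hr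
  have h1 := hc hr' h0 (show 0 ≤ s / s0 by positivity) (show 0 ≤ 1 - s / s0 by
    have : s / s0 ≤ 1 := (div_le_one hs0).2 hss
    linarith) (by ring)
  refine ⟨s / s0 * r, ?_⟩
  change s • x + (s / s0 * r) • u ∈ K
  convert h1 using 1
  rw [smul_zero, add_zero, smul_add, smul_smul, smul_smul, div_mul_cancel₀ s hs0.ne']

lemma exists_small {K : Set (E d)} {D : ℝ} (h : Ext K D) (y : E d) : ∃ l : ℝ, 0 < l ∧ l • y ∈ K := by
  have h1 : K ∈ 𝓝 (0 : E d) := mem_interior_iff_mem_nhds.1 h.zero_mem_int
  have h2 : Tendsto (fun l : ℝ => l • y) (𝓝[>] 0) (𝓝 0) := by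
    have : Continuous fun l : ℝ => l • y := by fun_prop
    have h3 := this.tendsto 0
    rw [zero_smul] at h3
    exact h3.mono_left nhdsWithin_le_nhds
  have h3 := (h2.eventually h1).and self_mem_nhdsWithin
  obtain ⟨l, hl1, hl2⟩ := h3.exists
  exact ⟨l, hl2, hl1⟩

lemma core {K : Set (E d)} {D : ℝ} (h : Ext K D) (hd : 2 ≤ d) {u x : E d} (hu : ‖u‖ = 1)
    (hx : ⟪x, u⟫ = 0) {s0 s : ℝ} (hs : s ∈ Ioo 0 s0) (hne : (chord u (s0 • x) K).Nonempty)
    {a b : ℝ} (hab : a ≤ b) (hch : chord u (s • x) K = Icc a b) :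
    ∃ α : ℝ, ∀ s' ∈ Ioo 0 s0, ∀ a' b' : ℝ, a' ≤ b' → chord u (s' • x) K = Icc a' b' →
      b' - b ≤ (s' - s) * ((a + b) / 2 / s - α) ∧
      (s' - s) * ((a + b) / 2 / s + α) ≤ a' - a := by
  classical
  have hD := h.pos
  have hsp : 0 < s := hs.1
  have h' := h.sym hu
  have hsx : ∀ s : ℝ, ⟪s • x, u⟫ = 0 := fun s => by rw [inner_smul_left, hx]; simp
  obtain ⟨l, hl, hlu⟩ := exists_small h' u
  have h0K' : (0 : E d) ∈ sym u K := interior_subset h'.zero_mem_int
  -- the foot point over s0 is in the symmetral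
  have hs0x : s0 • x ∈ sym u K := by
    have := (mem_sym_line hu (hsx s0) 0 K).2 ⟨hne, by simp⟩
    simpa using this
  -- the chord is nondegenerate
  have hablt : a < b := by
    have hθ : s / s0 < 1 := (div_lt_one (by linarith [hs.2])).2 hs.2
    have hθ0 : 0 ≤ s / s0 := div_nonneg hsp.le (by linarith [hs.2])
    have h1 := h'.conv hs0x hlu hθ0 (show 0 ≤ 1 - s / s0 by linarith) (by ring)
    have e : (s / s0) • s0 • x + (1 - s / s0) • l • u = s • x + ((1 - s / s0) * l) • u := by
      rw [smul_smul, smul_smul, div_mul_cancel₀ s (by linarith [hs.2] : s0 ≠ 0)]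
    rw [e, mem_sym_line hu (hsx s), hch, Real.volume_Icc, ENNReal.toReal_ofReal (by linarith)] at h1
    have h2 : 0 < (1 - s / s0) * l := mul_pos (by linarith) hl
    rw [abs_of_pos h2] at h1
    linarith [h1.2]
  -- the boundary point
  set p : E d := s • x + ((b - a) / 2) • u with hp
  have hpK : p ∈ sym u K := by
    rw [hp, mem_sym_line hu (hsx s), hch, Real.volume_Icc, ENNReal.toReal_ofReal (by linarith)]
    refine ⟨nonempty_Icc.2 hab, ?_⟩
    rw [abs_of_pos (by linarith)]
    linarith
  have hbd : ∀ ε : ℝ, 0 < ε → (1 + ε) • p ∉ sym u K := by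
    intro ε hε hmem
    have hθ : (1 + ε)⁻¹ < 1 := inv_lt_one_of_one_lt₀ (by linarith)
    have hθ0 : 0 ≤ (1 + ε)⁻¹ := by positivity
    have h1 := h'.conv hmem hlu hθ0 (show 0 ≤ 1 - (1 + ε)⁻¹ by linarith) (by ring)
    have e : (1 + ε)⁻¹ • (1 + ε) • p + (1 - (1 + ε)⁻¹) • l • u =
        s • x + ((b - a) / 2 + (1 - (1 + ε)⁻¹) * l) • u := by
      rw [smul_smul, inv_mul_cancel₀ (by linarith : (1 + ε) ≠ 0), one_smul, hp, smul_smul]
      rw [add_smul]; abel
    rw [e, mem_sym_line hu (hsx s), hch, Real.volume_Icc, ENNReal.toReal_ofReal (by linarith)] at h1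
    have h2 : 0 < (1 - (1 + ε)⁻¹) * l := mul_pos (by linarith) hl
    rw [abs_of_pos (by linarith)] at h1
    linarith [h1.2]
  let i0 : Fin d := ⟨0, by omega⟩
  obtain ⟨v, hv, hv0, hvD⟩ := h'.frame hd hpK hbd i0
  have hdec : ∀ i, ∃ y : E d, ∃ m t : ℝ, ⟪y, u⟫ = 0 ∧ v i = y + t • u ∧
      y + (m + t) • u ∈ K ∧ y + (m - t) • u ∈ K := by
    intro i
    obtain ⟨x, t, h1, h2, h3, h4⟩ := hv i
    rcases chord_cases hu x h.comp h.conv with h5 | ⟨a, b, hab, h5⟩
    · exfalso
      have : (chord u x K).Nonempty := h3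
      rw [h5] at this
      simp at this
    · rw [h5, Real.volume_Icc, ENNReal.toReal_ofReal (by linarith)] at h4
      have h6 := abs_le.1 (show |t| ≤ (b - a) / 2 by linarith)
      refine ⟨x, (a + b) / 2, t, h2, h1, ?_, ?_⟩
      · change (a + b) / 2 + t ∈ chord u x K
        rw [h5]; constructor <;> linarith [h6.1, h6.2]
      · change (a + b) / 2 - t ∈ chord u x K
        rw [h5]; constructor <;> linarith [h6.1, h6.2]
  choose y m t hy hvt h1 h2 using hdec
  obtain ⟨c, hc⟩ := om_line hu y hy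
  have e0 : ∑ i, c i * t i = D := by
    rw [← hc, ← hvD]
    congr 1
    ext1 i
    exact (hvt i).symm
  -- data at i0
  obtain ⟨ht0, hy0⟩ : t i0 = (b - a) / 2 ∧ y i0 = s • x := by
    have h3 : y i0 + t i0 • u = s • x + ((b - a) / 2) • u := by rw [← hvt i0, hv0]
    exact decomp_unique hu (hy i0) (hsx s) h3
  have hm0 : m i0 = (a + b) / 2 := by
    have h3 : m i0 + t i0 ∈ chord u (s • x) K := by
      change s • x + (m i0 + t i0) • u ∈ K
      rw [← hy0]; exact h1 i0
    have h4 : m i0 - t i0 ∈ chord u (s • x) K := by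
      change s • x + (m i0 - t i0) • u ∈ K
      rw [← hy0]; exact h2 i0
    rw [hch, ht0] at h3 h4
    linarith [h3.1, h3.2, h4.1, h4.2]
  -- the sum of c m vanishes
  have b1 := h.det _ h1
  have b2 := h.det _ h2
  rw [hc] at b1 b2
  have e1 : ∑ i, c i * (m i + t i) = ∑ i, c i * m i + D := by
    rw [← e0, ← Finset.sum_add_distrib]
    exact Finset.sum_congr rfl fun i _ => by ring
  have e2 : ∑ i, c i * (m i - t i) = ∑ i, c i * m i - D := by
    rw [← e0, ← Finset.sum_sub_distrib]
    exact Finset.sum_congr rfl fun i _ => by ring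
  have e3 : ∑ i, c i * m i = 0 := by
    rw [e1] at b1
    rw [e2] at b2
    rw [abs_le] at b1 b2
    linarith [b1.2, b2.1]
  rw [e3, zero_add] at e1
  rw [e3, zero_sub] at e2
  -- the frames in K
  set w : Fin d → E d := fun i => y i + (m i + t i) • u with hw
  set w' : Fin d → E d := fun i => y i + (m i - t i) • u with hw'
  have hwD : om d w = D := by rw [hw, hc, e1]
  have hw'D : om d w' = -D := by rw [hw', hc, e2]
  have hw0 : w i0 = s • x + b • u := by
    rw [hw]; simp only; rw [hy0, hm0, ht0]; congr 2; ring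
  have hw'0 : w' i0 = s • x + a • u := by
    rw [hw']; simp only; rw [hy0, hm0, ht0]; congr 2; ring
  have hcu : om d (Function.update w i0 u) = c i0 := by
    have f1 : om d (fun i => y i + ((m i + t i) + (Pi.single i0 (1 : ℝ) : Fin d → ℝ) i) • u) =
        D + c i0 := by
      rw [hc]
      simp only [mul_add, Finset.sum_add_distrib, Pi.single_apply, mul_ite, mul_one, mul_zero,
        Finset.sum_ite_eq', Finset.mem_univ, if_true]
      have := e1
      simp only [mul_add, Finset.sum_add_distrib] at this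
      rw [this]
    have f2 : (fun i => y i + ((m i + t i) + (Pi.single i0 (1 : ℝ) : Fin d → ℝ) i) • u) =
        Function.update w i0 (w i0 + u) := by
      ext1 i
      by_cases hi : i = i0
      · subst hi
        rw [Function.update_self, hw]
        simp only [Pi.single_eq_same]
        rw [add_smul _ (1 : ℝ) u, one_smul, add_assoc]
      · rw [Function.update_of_ne hi, hw]
        simp only [Pi.single_apply, hi, if_false, add_zero]
    rw [f2, (om d).map_update_add, Function.update_eq_self, hwD] at f1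
    linarith
  have hcu' : om d (Function.update w' i0 u) = c i0 := by
    have f1 : om d (fun i => y i + ((m i - t i) + (Pi.single i0 (1 : ℝ) : Fin d → ℝ) i) • u) =
        -D + c i0 := by
      rw [hc]
      simp only [mul_add, Finset.sum_add_distrib, Pi.single_apply, mul_ite, mul_one, mul_zero,
        Finset.sum_ite_eq', Finset.mem_univ, if_true]
      rw [e2]
    have f2 : (fun i => y i + ((m i - t i) + (Pi.single i0 (1 : ℝ) : Fin d → ℝ) i) • u) =
        Function.update w' i0 (w' i0 + u) := by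
      ext1 i
      by_cases hi : i = i0
      · subst hi
        rw [Function.update_self, hw']
        simp only [Pi.single_eq_same]
        rw [add_smul _ (1 : ℝ) u, one_smul, add_assoc]
      · rw [Function.update_of_ne hi, hw']
        simp only [Pi.single_apply, hi, if_false, add_zero]
    rw [f2, (om d).map_update_add, Function.update_eq_self, hw'D] at f1
    linarith
  have upd : ∀ s' r : ℝ, om d (Function.update w i0 (s' • x + r • u)) =
      s' / s * D + (r - s' / s * b) * c i0 := by
    intro s' r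
    have e : s' • x + r • u = (s' / s) • w i0 + (r - s' / s * b) • u := by
      rw [hw0, smul_add, smul_smul, smul_smul, div_mul_cancel₀ s' hsp.ne', sub_smul]
      abel
    rw [e, (om d).map_update_add, (om d).map_update_smul, (om d).map_update_smul,
      Function.update_eq_self, hwD, hcu, smul_eq_mul, smul_eq_mul]
  have upd' : ∀ s' r : ℝ, om d (Function.update w' i0 (s' • x + r • u)) =
      -(s' / s * D) + (r - s' / s * a) * c i0 := by
    intro s' r
    have e : s' • x + r • u = (s' / s) • w' i0 + (r - s' / s * a) • u := by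
      rw [hw'0, smul_add, smul_smul, smul_smul, div_mul_cancel₀ s' hsp.ne', sub_smul]
      abel
    rw [e, (om d).map_update_add, (om d).map_update_smul, (om d).map_update_smul,
      Function.update_eq_self, hw'D, hcu', smul_eq_mul, smul_eq_mul]
    ring
  have hupd : ∀ s' r : ℝ, s' • x + r • u ∈ K → s' / s * D + (r - s' / s * b) * c i0 ≤ D := by
    intro s' r hr
    rw [← upd]
    refine (le_abs_self _).trans (h.det _ fun i => ?_)
    by_cases hi : i = i0
    · rw [hi, Function.update_self]; exact hr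
    · rw [Function.update_of_ne hi]; exact h1 i
  have hupd' : ∀ s' r : ℝ, s' • x + r • u ∈ K → -D ≤ -(s' / s * D) + (r - s' / s * a) * c i0 := by
    intro s' r hr
    rw [← upd']
    refine (abs_le.1 (h.det _ fun i => ?_)).1
    by_cases hi : i = i0
    · rw [hi, Function.update_self]; exact hr
    · rw [Function.update_of_ne hi]; exact h2 i
  -- positivity of c
  have hcpos : 0 < c i0 := by
    have hge : 0 ≤ c i0 := by
      have h3 : s • x + a • u ∈ K := by
        have : a ∈ chord u (s • x) K := by rw [hch]; exact ⟨le_rfl, hab⟩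
        exact this
      have h4 := hupd s a h3
      rw [div_self hsp.ne'] at h4
      nlinarith
    rcases hge.lt_or_eq with h3 | h3
    · exact h3
    · exfalso
      set s1 := (s + s0) / 2 with hs1
      have hs1' : s < s1 ∧ s1 < s0 := by constructor <;> linarith [hs.2]
      have h0K : (0 : E d) ∈ K := interior_subset h.zero_mem_int
      obtain ⟨r, hr⟩ := chord_nonempty_of_le h.conv h0K (by linarith [hs.2]) (by linarith)
        hs1'.2.le hne
      have h4 := hupd s1 r hr
      rw [← h3, mul_zero, add_zero] at h4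
      have h5 : 1 < s1 / s := (one_lt_div hsp).2 hs1'.1
      nlinarith
  refine ⟨(D / c i0 - (b - a) / 2) / s, fun s' hs' a' b' hab' hch' => ?_⟩
  have hb' : s' • x + b' • u ∈ K := by
    have : b' ∈ chord u (s' • x) K := by rw [hch']; exact ⟨hab', le_rfl⟩
    exact this
  have ha' : s' • x + a' • u ∈ K := by
    have : a' ∈ chord u (s' • x) K := by rw [hch']; exact ⟨le_rfl, hab'⟩
    exact this
  have k1 := hupd s' b' hb'
  have k2 := hupd' s' a' ha'
  set q := D / c i0 with hq
  have hqD : D = q * c i0 := by rw [hq]; field_simp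
  rw [hqD] at k1 k2
  have k1' : s' / s * q + (b' - s' / s * b) ≤ q := by
    have : (s' / s * q + (b' - s' / s * b)) * c i0 ≤ q * c i0 := by linarith
    exact le_of_mul_le_mul_right this hcpos
  have k2' : -q ≤ -(s' / s * q) + (a' - s' / s * a) := by
    have : (-q) * c i0 ≤ (-(s' / s * q) + (a' - s' / s * a)) * c i0 := by linarith
    exact le_of_mul_le_mul_right this hcpos
  constructor
  · have e : (s' - s) * ((a + b) / 2 / s - (q - (b - a) / 2) / s) = (s' / s - 1) * (b - q) := by
      field_simp; ring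
    rw [e]
    linarith
  · have e : (s' - s) * ((a + b) / 2 / s + (q - (b - a) / 2) / s) = (s' / s - 1) * (a + q) := by
      field_simp; ring
    rw [e]
    linarith

/-- The midpoints lie on a line through the origin. -/
lemma mid_const {K : Set (E d)} {D : ℝ} (h : Ext K D) (hd : 2 ≤ d) {u x : E d} (hu : ‖u‖ = 1)
    (hx : ⟪x, u⟫ = 0) {s0 : ℝ} (hne : (chord u (s0 • x) K).Nonempty) :
    ∀ s ∈ Ioo 0 s0, ∀ s' ∈ Ioo 0 s0, ∀ a b a' b' : ℝ, a ≤ b → chord u (s • x) K = Icc a b →
      a' ≤ b' → chord u (s' • x) K = Icc a' b' → (a + b) / 2 / s = (a' + b') / 2 / s' := by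
  classical
  have h0K : (0 : E d) ∈ K := interior_subset h.zero_mem_int
  have hex : ∀ s : ℝ, ∃ a b : ℝ, s ∈ Ioo 0 s0 → (a ≤ b ∧ chord u (s • x) K = Icc a b) := by
    intro s
    by_cases hs : s ∈ Ioo 0 s0
    · rcases chord_cases hu (s • x) h.comp h.conv with h5 | ⟨a, b, hab, h5⟩
      · exfalso
        have := chord_nonempty_of_le (s := s) h.conv h0K (by linarith [hs.1, hs.2]) hs.1.le hs.2.le
          hne
        rw [h5] at this
        simp at this
      · exact ⟨a, b, fun _ => ⟨hab, h5⟩⟩
    · exact ⟨0, 0, fun h => absurd h hs⟩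
  choose a b hab using hex
  have hα : ∀ s : ℝ, ∃ α : ℝ, s ∈ Ioo 0 s0 → ∀ s' ∈ Ioo 0 s0,
      b s' - b s ≤ (s' - s) * ((a s + b s) / 2 / s - α) ∧
      (s' - s) * ((a s + b s) / 2 / s + α) ≤ a s' - a s := by
    intro s
    by_cases hs : s ∈ Ioo 0 s0
    · obtain ⟨α, hα⟩ := core h hd hu hx hs hne (hab s hs).1 (hab s hs).2
      exact ⟨α, fun _ s' hs' => hα s' hs' _ _ (hab s' hs').1 (hab s' hs').2⟩
    · exact ⟨0, fun h => absurd h hs⟩
  choose α hα using hα
  have key := beta_const (s0 := s0) (β := fun s => (a s + b s) / 2 / s)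
    (l := fun s => (b s - a s) / 2) (α := α) (by
      intro s hs s' hs'
      have h1 := (hα s hs s' hs').1
      have e1 : s' * ((a s' + b s') / 2 / s') + (b s' - a s') / 2 = b s' := by
        have := hs'.1.ne'
        field_simp; ring
      have e2 : s * ((a s + b s) / 2 / s) + (b s - a s) / 2 = b s := by
        have := hs.1.ne'
        field_simp; ring
      rw [e1, e2]
      exact h1) (by
      intro s hs s' hs'
      have h1 := (hα s hs s' hs').2
      have e1 : s' * ((a s' + b s') / 2 / s') - (b s' - a s') / 2 = a s' := by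
        have := hs'.1.ne'
        field_simp; ring
      have e2 : s * ((a s + b s) / 2 / s) - (b s - a s) / 2 = a s := by
        have := hs.1.ne'
        field_simp; ring
      rw [e1, e2]
      exact h1)
  have huniq : ∀ s ∈ Ioo 0 s0, ∀ a₁ b₁ : ℝ, a₁ ≤ b₁ → chord u (s • x) K = Icc a₁ b₁ →
      a₁ = a s ∧ b₁ = b s := by
    intro s hs a₁ b₁ h1 h2
    rw [(hab s hs).2] at h2
    have h3 := (Icc_eq_Icc_iff h1).1 h2.symm
    exact h3
  intro s hs s' hs' a₁ b₁ a₂ b₂ h1 h2 h3 h4
  obtain ⟨rfl, rfl⟩ := huniq s hs a₁ b₁ h1 h2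
  obtain ⟨rfl, rfl⟩ := huniq s' hs' a₂ b₂ h3 h4
  exact key s hs s' hs'

end Pool.Agent.V8H77.GM
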