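import Pool.Agent.V8H77.GM.Ineq

set_option autoImplicit false

open MeasureTheory Set Filter Topology Metric
open scoped RealInnerProductSpace ENNReal

namespace Pool.Agent.V8H77.GM

open Pool.Agent.H318R3.St

variable {d : ℕ}

/-- the comparison class -/
structure Adm (R c : ℝ) (V : ℝ≥0∞) (L : Set (E d)) : Prop where
  comp : IsCompact L
  conv : Convex ℝ L
  sub : L ⊆ closedBall 0 R
  vol : volume L = V
  det : ∀ v : Fin d → E d, (∀ i, v i ∈ L) → |om d v| ≤ c

lemma Adm.sym {R c : ℝ} {V : ℝ≥0∞} {L : Set (E d)} (h : Adm R c V L) {u : E d} (hu : ‖u‖ = 1) :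
    Adm R c V (sym u L) where
  comp := sym_isCompact hu h.comp h.conv
  conv := sym_convex hu h.comp h.conv
  sub := sym_subset_ball hu h.comp h.conv h.sub
  vol := (sym_volume hu h.comp h.conv).trans h.vol
  det := om_sym hu h.comp h.conv h.det

/-- limits of bounds on determinants -/
lemma det_lim {K : ℕ → Set (E d)} {L : Set (E d)} {c : ℝ} (hK : ∀ n, IsCompact (K n))
    (hKn : ∀ n, (K n).Nonempty) (hL : IsCompact L) (hLn : L.Nonempty)
    (hlim : Tendsto (fun n => hausdorffDist (K n) L) atTop (𝓝 0))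
    (h : ∀ n, ∀ v : Fin d → E d, (∀ i, v i ∈ K n) → |om d v| ≤ c)
    (v : Fin d → E d) (hv : ∀ i, v i ∈ L) : |om d v| ≤ c := by
  have h1 : ∀ n, ∃ w : Fin d → E d, (∀ i, w i ∈ K n) ∧
      ∀ i, dist (w i) (v i) ≤ hausdorffDist (K n) L + 1 / ((n : ℝ) + 1) := by
    intro n
    have : ∀ i, ∃ w ∈ K n, dist w (v i) < hausdorffDist (K n) L + 1 / ((n : ℝ) + 1) := by
      intro i
      apply exists_dist_lt_of_hausdorffDist_lt' (hv i)
      · have : (0 : ℝ) < 1 / ((n : ℝ) + 1) := by positivity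
        linarith
      · exact haus_fin (hKn n) hLn (hK n) hL
    choose w hw1 hw2 using this
    exact ⟨w, hw1, fun i => (hw2 i).le⟩
  choose w hw1 hw2 using h1
  have h2 : Tendsto (fun n => hausdorffDist (K n) L + 1 / ((n : ℝ) + 1)) atTop (𝓝 0) := by
    have := hlim.add tendsto_one_div_add_atTop_nhds_zero_nat
    simpa using this
  have h3 : Tendsto w atTop (𝓝 v) := by
    rw [tendsto_pi_nhds]
    intro i
    rw [tendsto_iff_dist_tendsto_zero]
    exact squeeze_zero (fun _ => dist_nonneg) (fun n => hw2 n i) h2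
  have h4 : Tendsto (fun n => |om d (w n)|) atTop (𝓝 |om d v|) :=
    ((om_continuous.tendsto v).comp h3).abs
  exact le_of_tendsto h4 (Eventually.of_forall fun n => h n _ (hw1 n))

/-- A set that is invariant under all reflections is a centred ball. -/
lemma ball_of_refl {L : Set (E d)} (hL : IsCompact L) (hne : L.Nonempty) (hc : Convex ℝ L)
    (h : ∀ u : E d, ‖u‖ = 1 → ∀ y ∈ L, refl u y ∈ L) : ∃ r, 0 ≤ r ∧ L = closedBall 0 r := by
  obtain ⟨y, hy, hmax⟩ := hL.exists_isMaxOn hne continuous_norm.continuousOn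
  refine ⟨‖y‖, norm_nonneg y, ?_⟩
  have hsph : ∀ z : E d, ‖z‖ = ‖y‖ → z ∈ L := by
    intro z hz
    by_cases hzy : y = z
    · rw [← hzy]; exact hy
    have hne' : y - z ≠ 0 := sub_ne_zero.2 hzy
    have hn : 0 < ‖y - z‖ := norm_pos_iff.2 hne'
    set u : E d := (‖y - z‖)⁻¹ • (y - z) with hu
    have hun : ‖u‖ = 1 := by
      rw [hu, norm_smul, norm_inv, norm_norm, inv_mul_cancel₀ hn.ne']
    have h1 := h u hun y hy
    have h2 : H318R3.St.refl u y = z := by
      rw [refl_apply hun]
      have e1 : ‖y - z‖ ^ 2 = 2 * ⟪y, y - z⟫ := by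
        rw [norm_sub_sq_real, hz, inner_sub_right, real_inner_self_eq_norm_sq]; ring
      have e2 : (2 * ⟪y, u⟫) • u = y - z := by
        rw [hu, inner_smul_right, smul_smul]
        have : 2 * (‖y - z‖⁻¹ * ⟪y, y - z⟫) * ‖y - z‖⁻¹ = 1 := by
          field_simp
          linarith
        rw [this, one_smul]
      rw [e2]; abel
    rwa [h2] at h1
  ext z
  constructor
  · intro hz
    rw [mem_closedBall_zero_iff]
    exact hmax hz
  · intro hz
    rw [mem_closedBall_zero_iff] at hz
    by_cases hz0 : z = 0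
    · have h1 := hsph (-y) (norm_neg y)
      have h2 := hc hy h1 (show (0:ℝ) ≤ 1/2 by norm_num) (show (0:ℝ) ≤ 1/2 by norm_num)
        (by norm_num)
      rw [hz0]
      convert h2 using 1
      simp
    · have hn : 0 < ‖z‖ := norm_pos_iff.2 hz0
      set t : ℝ := ‖y‖ / ‖z‖ with ht
      have h1 := hsph (t • z) (by
        rw [norm_smul, ht, norm_div, norm_norm, norm_norm]; field_simp)
      have h2 := hsph (-(t • z)) (by
        rw [norm_neg, norm_smul, ht, norm_div, norm_norm, norm_norm]; field_simp)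
      have ht1 : 1 ≤ t := by rw [ht, le_div_iff₀ hn]; linarith
      have h3 := hc h1 h2 (show (0:ℝ) ≤ (1 + 1 / t) / 2 by positivity)
        (show (0:ℝ) ≤ (1 - 1 / t) / 2 by
          have : 1 / t ≤ 1 := by rw [div_le_one (by linarith)]; exact ht1
          linarith) (by ring)
      convert h3 using 1
      rw [smul_neg, ← sub_eq_add_neg, ← sub_smul, smul_smul]
      have : ((1 + 1 / t) / 2 - (1 - 1 / t) / 2) * t = 1 := by
        field_simp; ring
      rw [this, one_smul]

/-- Every convex body is at least as good as the ball of the same volume. -/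
theorem exists_ball {K : Set (E d)} (hK : IsCompact K) (hc : Convex ℝ K)
    (hint : (interior K).Nonempty) {c : ℝ}
    (h : ∀ v : Fin d → E d, (∀ i, v i ∈ K) → |om d v| ≤ c) :
    ∃ r, 0 ≤ r ∧ volume K = volume (closedBall (0 : E d) r) ∧ r ^ d ≤ c := by
  obtain ⟨R, hR⟩ := hK.isBounded.subset_closedBall 0
  have hV0 : volume K ≠ 0 :=
    ((isOpen_interior.measure_pos volume hint).trans_le (measure_mono interior_subset)).ne'
  have hVtop : volume K ≠ ⊤ := hK.measure_lt_top.ne
  have hadm : Adm R c (volume K) K := ⟨hK, hc, hR, rfl, h⟩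
  -- the infimum
  set S : Set ℝ≥0∞ := (fun L => JJ R L) '' {L : Set (E d) | Adm R c (volume K) L} with hS
  have hSn : S.Nonempty := ⟨_, K, hadm, rfl⟩
  obtain ⟨s, -, hs1, hs2⟩ := exists_seq_tendsto_sInf hSn (OrderBot.bddBelow S)
  choose A hA1 hA2 using hs2
  have hAne : ∀ n, (A n).Nonempty := by
    intro n
    rw [nonempty_iff_ne_empty]
    intro h0
    have := (hA1 n).vol
    rw [h0] at this
    simp at this
    exact hV0 this.symm
  obtain ⟨L, hL, hLn, hLc, hLR, φ, hφ, hlim⟩ := blaschke A R (fun n => (hA1 n).comp) hAne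
    (fun n => (hA1 n).conv) (fun n => (hA1 n).sub)
  have hvolL : volume L = volume K := by
    have h1 := tendsto_lint (fun k => hAne (φ k)) hLn (fun k => (hA1 (φ k)).comp) hL
      (fun k => (hA1 (φ k)).conv) hLc hlim (fun k => (hA1 (φ k)).sub) (fun _ => 1) measurable_const
      (C := 1) ENNReal.one_ne_top (fun _ _ => le_rfl)
    simp only [setLIntegral_one] at h1
    have h2 : (fun k => volume (A (φ k))) = fun _ => volume K := by
      ext k; exact (hA1 (φ k)).vol
    rw [h2] at h1
    exact (tendsto_nhds_unique h1 tendsto_const_nhds)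
  have hbdJ : ∀ x ∈ closedBall (0 : E d) R, ENNReal.ofReal (‖x‖ ^ 2 + 4 * R ^ 2) ≤
      ENNReal.ofReal (R ^ 2 + 4 * R ^ 2) := by
    intro x hx
    apply ENNReal.ofReal_le_ofReal
    have h1 := mem_closedBall_zero_iff.1 hx
    have h2 := norm_nonneg x
    nlinarith
  have hJlim : Tendsto (fun k => JJ R (A (φ k))) atTop (𝓝 (JJ R L)) :=
    tendsto_lint (fun k => hAne (φ k)) hLn (fun k => (hA1 (φ k)).comp) hL
      (fun k => (hA1 (φ k)).conv) hLc hlim (fun k => (hA1 (φ k)).sub) _ (by fun_prop)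
      (C := ENNReal.ofReal (R ^ 2 + 4 * R ^ 2)) ENNReal.ofReal_ne_top hbdJ
  have hLadm : Adm R c (volume K) L := by
    refine ⟨hL, hLc, hLR, hvolL, ?_⟩
    exact det_lim (fun n => (hA1 (φ n)).comp) (fun n => hAne (φ n)) hL hLn hlim
      (fun n => (hA1 (φ n)).det)
  have hJL : JJ R L = sInf S := by
    have h1 : (fun k => JJ R (A (φ k))) = fun k => s (φ k) := by
      ext k; exact hA2 (φ k)
    rw [h1] at hJlim
    exact tendsto_nhds_unique hJlim (hs1.comp hφ.tendsto_atTop)
  have hrefl : ∀ u : E d, ‖u‖ = 1 → ∀ y ∈ L, refl u y ∈ L := by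
    intro u hu
    apply refl_mem R hu hL hLc (by rw [hvolL]; exact hV0)
    rw [hJL]
    exact sInf_le ⟨_, hLadm.sym hu, rfl⟩
  obtain ⟨r, hr, hLr⟩ := ball_of_refl hL hLn hLc hrefl
  refine ⟨r, hr, by rw [← hvolL, hLr], ?_⟩
  have h1 := hLadm.det (fun i => r • EuclideanSpace.basisFun (Fin d) ℝ i) (by
    intro i
    rw [hLr, mem_closedBall_zero_iff, norm_smul, OrthonormalBasis.norm_eq_one,
      Real.norm_of_nonneg hr, mul_one])
  have h2 : om d (fun i => r • EuclideanSpace.basisFun (Fin d) ℝ i) = r ^ d := by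
    have := (om d).map_smul_univ (fun _ => r) (fun i => EuclideanSpace.basisFun (Fin d) ℝ i)
    rw [om_std] at this
    simpa using this
  rw [h2, abs_of_nonneg (pow_nonneg hr d)] at h1
  exact h1

end Pool.Agent.V8H77.GM
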