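import Pool.Agent.V8H77.GM.Mid

set_option autoImplicit false

open MeasureTheory Set Filter Topology Metric
open scoped RealInnerProductSpace ENNReal

namespace Pool.Agent.V8H77.GM

open Pool.Agent.H318R3.St

variable {d : ℕ}

lemma mem_of_scaled {K : Set (E d)} (hK : IsClosed K) {z : E d}
    (h : ∀ l : ℝ, 0 < l → l < 1 → l • z ∈ K) : z ∈ K := by
  have h1 : Tendsto (fun l : ℝ => l • z) (𝓝[<] 1) (𝓝 z) := by
    have : Continuous fun l : ℝ => l • z := by fun_prop
    have h3 := this.tendsto 1
    rw [one_smul] at h3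
    exact h3.mono_left nhdsWithin_le_nhds
  apply hK.mem_of_tendsto h1
  have h2 : ∀ᶠ l : ℝ in 𝓝[<] 1, 0 < l := by
    apply nhdsWithin_le_nhds
    exact lt_mem_nhds one_pos
  filter_upwards [h2, self_mem_nhdsWithin] with l hl1 hl2
  exact h l hl1 hl2

/-- The reflection property for a unit direction. -/
lemma refl_unit {K : Set (E d)} {D : ℝ} (h : Ext K D) (hd : 2 ≤ d) {u x : E d} (hu : ‖u‖ = 1)
    (hx : ⟪x, u⟫ = 0) :
    ∃ β : ℝ, ∀ s r : ℝ, s • x + r • u ∈ K → s • x + (2 * s * β - r) • u ∈ K := by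
  have h0K : (0 : E d) ∈ K := interior_subset h.zero_mem_int
  obtain ⟨l, hl, hlx⟩ := exists_small h x
  have hnl : (chord u (l • x) K).Nonempty := ⟨0, by
    change l • x + (0 : ℝ) • u ∈ K
    simpa using hlx⟩
  have hn1 := chord_nonempty_of_le (s := l / 2) h.conv h0K hl (by linarith) (by linarith) hnl
  rcases chord_cases hu ((l / 2) • x) h.comp h.conv with h5 | ⟨a, b, hab, hch⟩
  · rw [h5] at hn1; simp at hn1
  refine ⟨(a + b) / 2 / (l / 2), ?_⟩
  set β := (a + b) / 2 / (l / 2) with hβ
  have hpos : ∀ s r : ℝ, 0 < s → s • x + r • u ∈ K → s • x + (2 * s * β - r) • u ∈ K := by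
    intro s r hs hz
    apply mem_of_scaled h.comp.isClosed
    intro m hm0 hm1
    have hn : (chord u ((max s l) • x) K).Nonempty := by
      rcases le_total s l with h6 | h6
      · rw [max_eq_right h6]; exact hnl
      · rw [max_eq_left h6]; exact ⟨r, hz⟩
    have hmz : m * r ∈ chord u ((m * s) • x) K := by
      change (m * s) • x + (m * r) • u ∈ K
      have := h.conv hz h0K hm0.le (show 0 ≤ 1 - m by linarith) (by ring)
      rw [smul_zero, add_zero, smul_add, smul_smul, smul_smul] at this
      exact this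
    have hms : 0 < m * s := mul_pos hm0 hs
    have hms' : m * s < max s l := by
      have : m * s < s := by nlinarith
      exact this.trans_le (le_max_left _ _)
    rcases chord_cases hu ((m * s) • x) h.comp h.conv with h7 | ⟨a', b', hab', hch'⟩
    · rw [h7] at hmz; simp at hmz
    · have key := mid_const h hd hu hx hn (l / 2) ⟨by linarith, by
        have := le_max_right s l
        linarith⟩ (m * s) ⟨hms, hms'⟩ a b a' b' hab hch hab' hch'
      rw [← hβ] at key
      have e : a' + b' = 2 * (m * s) * β := by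
        rw [key]; field_simp
      have hmem : a' + b' - m * r ∈ chord u ((m * s) • x) K := by
        rw [hch'] at hmz ⊢
        constructor <;> linarith [hmz.1, hmz.2]
      have hmem' : (m * s) • x + (a' + b' - m * r) • u ∈ K := hmem
      convert hmem' using 1
      rw [smul_add, smul_smul, smul_smul, e]
      congr 2
      ring
  intro s r hz
  rcases lt_trichotomy s 0 with hs | hs | hs
  · have h1 := h.symm _ hz
    have e : -(s • x + r • u) = (-s) • x + (-r) • u := by rw [neg_smul, neg_smul]; abel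
    rw [e] at h1
    have h2 := h.symm _ (hpos (-s) (-r) (by linarith) h1)
    convert h2 using 1
    rw [neg_add, neg_smul, neg_neg, ← neg_smul]
    congr 2
    ring
  · subst hs
    have h1 := h.symm _ hz
    convert h1 using 1
    simp
  · exact hpos s r hs hz

/-- The reflection property in a plane. -/
lemma refl_gen {K : Set (E d)} {D : ℝ} (h : Ext K D) (hd : 2 ≤ d) {u : E d} (hu : u ≠ 0)
    (x : E d) :
    ∃ β : ℝ, ∀ s r : ℝ, s • x + r • u ∈ K → s • x + (2 * s * β - r) • u ∈ K := by
  have hn : 0 < ‖u‖ := norm_pos_iff.2 hu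
  set v : E d := ‖u‖⁻¹ • u with hv
  have hvn : ‖v‖ = 1 := by rw [hv, norm_smul, norm_inv, norm_norm, inv_mul_cancel₀ hn.ne']
  have huv : u = ‖u‖ • v := by rw [hv, smul_smul, mul_inv_cancel₀ hn.ne', one_smul]
  obtain ⟨β, hβ⟩ := refl_unit h hd hvn (foot_inner hvn x)
  refine ⟨(β - ⟪x, v⟫) / ‖u‖, fun s r hz => ?_⟩
  have e1 : ∀ a b : ℝ, a • x + b • u = a • foot v x + (a * ⟪x, v⟫ + b * ‖u‖) • v := by
    intro a b
    calc a • x + b • u = a • (foot v x + ⟪x, v⟫ • v) + b • (‖u‖ • v) := by rw [foot_add, ← huv]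
      _ = _ := by module
  rw [e1] at hz
  have h1 := hβ _ _ hz
  rw [e1]
  convert h1 using 3
  field_simp
  ring

end Pool.Agent.V8H77.GM
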